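import Pool.Agent.Helper1.SEY.BgMain

/-!
# Block BG of project SEY, part 4: the ear theorem for `HasT`
-/

set_option autoImplicit false

namespace SEY

open Finset

variable {E : Type} [Fintype E] [DecidableEq E]

namespace BG

/-- The rows are the functions on `S` which are orthogonal to all cycles. -/
theorem mem_R_of_orth (M : BM E) {f : E → ZMod 2} (h0 : ∀ e, e ∉ M.S → f e = 0)
    (h : ∀ z ∈ M.Z, dot f z = 0) : f ∈ M.R := by
  have h1 := LinearMap.BilinForm.orthogonal_orthogonal (B := bil (E := E)) bil_nd bil_refl M.R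
  rw [← h1, LinearMap.BilinForm.mem_orthogonal_iff]
  intro y hy
  rw [LinearMap.BilinForm.mem_orthogonal_iff] at hy
  have h2 : mask M.S y ∈ M.Z := by
    refine ⟨fun e he => mask_not_mem he y, fun g hg => ?_⟩
    rw [dot_comm, dot_mask_left y g (M.supp g hg), dot_comm]
    exact hy g hg
  have h3 := h _ h2
  rw [dot_comm, dot_mask_left y f h0] at h3
  exact h3

theorem sub_res {r k : ℕ} {rows : Fin r → Fin k → ZMod 2} {M : BM E} {A : Finset E}
    {π : E → Fin k} (h : Sub rows M A π) : Sub rows (M.res A) A π := by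
  obtain ⟨h1, h2, h3⟩ := h
  refine ⟨by rw [res_S M h1], h2, fun z hz => ?_⟩
  rw [mem_Z_res h1]
  constructor
  · rintro ⟨h4, -⟩
    exact (h3 z hz).1 h4
  · intro h4
    exact ⟨(h3 z hz).2 h4, hz⟩

/-- A series extension which is 3-connected is an isomorphic copy. -/
theorem iso_of_sub {r k : ℕ} (rows : Fin r → Fin k → ZMod 2) (M : BM E) (π : E → Fin k)
    (h : Sub rows M M.S π) (hinj : ∀ a ∈ M.S, ∀ b ∈ M.S, π a = π b → a = b) :
    IsIso rows M := by
  classical
  obtain ⟨-, h2, h3⟩ := h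
  choose φ hφS hφ using h2
  have hφπ : ∀ e ∈ M.S, φ (π e) = e := fun e he => hinj _ (hφS _) e he (hφ _)
  have hsum : ∀ (g : E → ZMod 2), (∀ e, e ∉ M.S → g e = 0) → ∑ e, g e = ∑ j, g (φ j) := by
    intro g hg
    have h4 : ∑ e, g e = ∑ e ∈ M.S, g e := by
      refine (Finset.sum_subset (Finset.subset_univ _) fun e _ he => hg e he).symm
    rw [h4]
    refine Finset.sum_bij' (fun e _ => π e) (fun j _ => φ j) (fun _ _ => Finset.mem_univ _)
      (fun j _ => hφS j) (fun e he => hφπ e he) (fun j _ => hφ j) (fun e he => ?_)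
    rw [hφπ e he]
  refine ⟨φ, ?_, ?_, ?_, ?_⟩
  · intro i j hij
    rw [← hφ i, ← hφ j, hij]
  · intro e
    constructor
    · intro he
      exact ⟨π e, hφπ e he⟩
    · rintro ⟨i, rfl⟩
      exact hφS i
  · intro i
    refine ⟨mask M.S fun e => rows i (π e), ?_, fun j => ?_⟩
    · refine mem_R_of_orth M (fun e he => mask_not_mem he _) fun z hz => ?_
      obtain ⟨w, hw, hwz⟩ := (h3 z hz.1).1 hz
      refine Eq.trans ?_ (hw i)
      unfold dot
      rw [hsum _ fun e he => by rw [mask_not_mem he, zero_mul]]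
      refine Finset.sum_congr rfl fun j _ => ?_
      rw [mask_mem (hφS j), hwz _ (hφS j), hφ j]
    · rw [mask_mem (hφS j), hφ j]
  · intro f hf
    have h4 : (fun j => f (φ j)) ∈ (ofRows rows).R := by
      refine mem_R_of_orth (ofRows rows) (fun e he => absurd (Finset.mem_univ e) he)
        fun w hw => ?_
      have h5 : ∀ i, ∑ j, rows i j * w j = 0 := fun i =>
        hw.2 (rows i) (Submodule.subset_span ⟨i, rfl⟩)
      have h6 : mask M.S (fun e => w (π e)) ∈ M.Z := by
        refine (h3 _ fun e he => mask_not_mem he _).2 ⟨w, h5, fun e he => mask_mem he _⟩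
      refine Eq.trans ?_ (h6.2 f hf)
      unfold dot
      rw [hsum _ fun e he => by rw [mask_not_mem he, mul_zero]]
      refine Finset.sum_congr rfl fun j _ => ?_
      rw [mask_mem (hφS j), hφ j]
    obtain ⟨c, hc⟩ := (Submodule.mem_span_range_iff_exists_fun (ZMod 2)).1 h4
    refine ⟨c, fun j => ?_⟩
    have h5 := congrFun hc j
    rw [← h5, Finset.sum_apply]
    rfl

theorem bg_has_main {r k : ℕ} (rows : Fin r → Fin k → ZMod 2) (h0 : (ofRows rows).TC) (M : BM E)
    (h : M.TC) (hT : HasT rows M) (hI : ¬ IsIso rows M) :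
    ∃ e ∈ M.S, (M.del {e}).SC ∧ HasT rows (M.del {e}) := by
  obtain ⟨A0, π, hsub⟩ := hT
  obtain ⟨hsc, hser⟩ := SC_of_Sub rows h0 M A0 π hsub
  have hA0 : A0 ⊂ M.S := by
    refine Finset.ssubset_iff_subset_ne.2 ⟨hsub.1, fun hE => ?_⟩
    subst hE
    rw [res_self] at hser
    exact hI (iso_of_sub rows M π hsub fun a ha b hb hab =>
      ((TC_iff_SC M).1 h).2 a ha b hb ((hser a ha b hb).2 hab))
  obtain ⟨e, he, h1, h2⟩ := bg_main M h (fun A => HasT rows (M.res A))
    (fun A B hAB hB hA => by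
      have h3 : M.res A = (M.res B).del (B \ A) := by
        rw [del_eq_res, res_S M hB, Finset.sdiff_sdiff_eq_self hAB, res_res M hAB]
      rw [h3] at hA
      exact HasT_of_del hA)
    (fun A x P hA hx hP hz hQ => by
      refine HasT_switch h0 A hA x hx P (hP.sub.trans Finset.sdiff_subset) ?_ hP.ne hz
        hP.2.2.2 hQ
      rw [Finset.disjoint_left]
      exact hP.not_mem)
    A0 hA0 hsc ⟨A0, π, sub_res hsub⟩
  refine ⟨e, he, h1, ?_⟩
  rw [del_eq_res, Finset.sdiff_singleton_eq_erase]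
  exact h2

end BG

end SEY
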