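import Pool.Agent.Helper1.SEY.Ear

/-!
# Block BG of project SEY, part 2: the connectivity function and the cycle space

`nu M X` is the dimension of the space of cycles inside `X`; `M.lam A = nu S - nu A - nu (S \ A)`.
`ear_lam` is (S3) for the connectivity function.
-/

set_option autoImplicit false

namespace SEY

open Finset

variable {E : Type} [Fintype E] [DecidableEq E]

namespace BG

theorem dot_single (f : E → ZMod 2) (e : E) : dot f (Pi.single e 1) = f e := by
  unfold dot
  rw [Finset.sum_eq_single e]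
  · simp
  · intro b _ hb
    simp [hb]
  · intro h
    exact absurd (Finset.mem_univ e) h

theorem dot_comm (f g : E → ZMod 2) : dot f g = dot g f := by
  unfold dot
  exact Finset.sum_congr rfl fun e _ => mul_comm _ _

/-- The inner product as a bilinear form. -/
def bil : LinearMap.BilinForm (ZMod 2) (E → ZMod 2) :=
  LinearMap.mk₂ (ZMod 2) dot
    (fun f g h => by simp [dot, add_mul, Finset.sum_add_distrib])
    (fun c f g => by simp [dot, mul_assoc, Finset.mul_sum])
    (fun f g h => by simp [dot, mul_add, Finset.sum_add_distrib])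
    (fun c f g => by
      simp only [dot, Pi.smul_apply, smul_eq_mul, Finset.mul_sum]
      exact Finset.sum_congr rfl fun e _ => by ring)

theorem bil_apply (f g : E → ZMod 2) : bil f g = dot f g := rfl

theorem bil_refl : (bil (E := E)).IsRefl := fun f g h => by
  rw [bil_apply, dot_comm]
  exact h

theorem bil_nd : (bil (E := E)).Nondegenerate := by
  refine (LinearMap.IsRefl.nondegenerate_iff_separatingLeft bil_refl).2 fun f hf => ?_
  funext e
  have := hf (Pi.single e 1)
  rwa [bil_apply, dot_single] at this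

theorem mask_apply (A : Finset E) (f : E → ZMod 2) (e : E) :
    mask A f e = if e ∈ A then f e else 0 := rfl

theorem mask_mem {A : Finset E} {e : E} (h : e ∈ A) (f : E → ZMod 2) : mask A f e = f e := by
  rw [mask_apply, if_pos h]

theorem mask_not_mem {A : Finset E} {e : E} (h : e ∉ A) (f : E → ZMod 2) : mask A f e = 0 := by
  rw [mask_apply, if_neg h]

theorem dot_mask_left {A : Finset E} (f z : E → ZMod 2) (hz : ∀ e, e ∉ A → z e = 0) :
    dot (mask A f) z = dot f z := by
  unfold dot
  refine Finset.sum_congr rfl fun e _ => ?_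
  by_cases h : e ∈ A
  · rw [mask_mem h]
  · rw [hz e h, mul_zero, mul_zero]

theorem finrank_range_mask (A : Finset E) :
    Module.finrank (ZMod 2) (LinearMap.range (mask A)) = A.card := by
  have h1 := LinearMap.finrank_range_add_finrank_ker (mask A)
  have h2 := LinearMap.finrank_range_add_finrank_ker
    (LinearMap.funLeft (ZMod 2) (ZMod 2) (Subtype.val : A → E))
  have h3 : LinearMap.ker (mask A) =
      LinearMap.ker (LinearMap.funLeft (ZMod 2) (ZMod 2) (Subtype.val : A → E)) := by
    ext f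
    rw [LinearMap.mem_ker, LinearMap.mem_ker]
    constructor
    · intro h
      funext e
      have := congrFun h e.1
      rw [mask_mem e.2] at this
      exact this
    · intro h
      funext e
      by_cases he : e ∈ A
      · rw [mask_mem he]
        exact congrFun h ⟨e, he⟩
      · rw [mask_not_mem he]
        rfl
  have h4 : LinearMap.range (LinearMap.funLeft (ZMod 2) (ZMod 2) (Subtype.val : A → E)) = ⊤ :=
    LinearMap.range_eq_top.2 (LinearMap.funLeft_surjective_of_injective _ _ _
      Subtype.val_injective)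
  rw [h4, finrank_top, Module.finrank_fintype_fun_eq_card, ← h3, Fintype.card_coe] at h2
  omega

/-- The dimension of the space of cycles inside `X`. -/
noncomputable def nu (M : BM E) (X : Finset E) : ℕ := Module.finrank (ZMod 2) (Zs M X)

theorem r_add_nu (M : BM E) {A : Finset E} (hA : A ⊆ M.S) : M.r A + nu M A = A.card := by
  set W := M.R.map (mask A) with hW
  set O := bil.orthogonal W with hO
  have h1 : Module.finrank (ZMod 2) O = Module.finrank (ZMod 2) (E → ZMod 2) -
      Module.finrank (ZMod 2) W := LinearMap.BilinForm.finrank_orthogonal bil_nd W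
  have h1' : Module.finrank (ZMod 2) W ≤ Module.finrank (ZMod 2) (E → ZMod 2) :=
    Submodule.finrank_le W
  have h2 := LinearMap.finrank_range_add_finrank_ker (mask A)
  have h3 := LinearMap.finrank_range_add_finrank_ker ((mask A).domRestrict O)
  have hmO : ∀ z, z ∈ O ↔ ∀ f ∈ M.R, dot (mask A f) z = 0 := by
    intro z
    rw [hO, LinearMap.BilinForm.mem_orthogonal_iff]
    constructor
    · intro h f hf
      exact h (mask A f) (Submodule.mem_map_of_mem hf)
    · rintro h _ ⟨f, hf, rfl⟩
      exact h f hf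
  have h4 : LinearMap.range ((mask A).domRestrict O) = Zs M A := by
    ext z
    rw [LinearMap.mem_range, mem_Zs]
    constructor
    · rintro ⟨⟨y, hy⟩, rfl⟩
      rw [LinearMap.domRestrict_apply]
      refine ⟨⟨fun e he => mask_not_mem (fun h => he (hA h)) _, fun f hf => ?_⟩,
        fun e he => mask_not_mem he _⟩
      have := (hmO y).1 hy f hf
      rw [← dot_mask_left f _ fun e he => mask_not_mem he y]
      rw [dot_comm, dot_mask_left _ _ fun e he => mask_not_mem he f, dot_comm]
      exact this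
    · rintro ⟨hz, hz'⟩
      refine ⟨⟨z, (hmO z).2 fun f hf => ?_⟩, ?_⟩
      · rw [dot_mask_left f z hz']
        exact hz.2 f hf
      · rw [LinearMap.domRestrict_apply]
        funext e
        by_cases he : e ∈ A
        · exact mask_mem he _
        · rw [hz' e he]
          exact mask_not_mem he _
  have h5 : Module.finrank (ZMod 2) (LinearMap.ker ((mask A).domRestrict O)) =
      Module.finrank (ZMod 2) (LinearMap.ker (mask A)) := by
    have h6 : LinearMap.ker (mask A) ≤ O := by
      intro z hz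
      rw [LinearMap.mem_ker] at hz
      rw [hmO]
      intro f _
      rw [dot_comm, ← dot_mask_left z _ fun e he => mask_not_mem he f, hz]
      simp [dot]
    rw [LinearMap.ker_domRestrict]
    exact LinearEquiv.finrank_eq (Submodule.submoduleOfEquivOfLe h6)
  rw [finrank_range_mask] at h2
  rw [h4, h5] at h3
  have h7 : M.r A = Module.finrank (ZMod 2) W := rfl
  have h8 : nu M A = Module.finrank (ZMod 2) (Zs M A) := rfl
  omega

theorem Zs_mono (M : BM E) {X Y : Finset E} (h : X ⊆ Y) : Zs M X ≤ Zs M Y :=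
  fun _ hz => ⟨hz.1, fun e he => hz.2 e fun h' => he (h h')⟩

theorem Zs_inf (M : BM E) {X Y : Finset E} (h : Disjoint X Y) : Zs M X ⊓ Zs M Y = ⊥ := by
  rw [Submodule.eq_bot_iff]
  rintro z ⟨h1, h2⟩
  funext e
  by_cases he : e ∈ X
  · exact h2.2 e (Finset.disjoint_left.1 h he)
  · exact h1.2 e he

theorem finrank_Zs_sup (M : BM E) {X Y : Finset E} (h : Disjoint X Y) :
    Module.finrank (ZMod 2) (Zs M X ⊔ Zs M Y : Submodule (ZMod 2) (E → ZMod 2)) =
      nu M X + nu M Y := by
  have := Submodule.finrank_sup_add_finrank_inf_eq (Zs M X) (Zs M Y)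
  rw [Zs_inf M h, finrank_bot, add_zero] at this
  exact this

theorem nu_add_le (M : BM E) {X Y W : Finset E} (h : Disjoint X Y) (hX : X ⊆ W) (hY : Y ⊆ W) :
    nu M X + nu M Y ≤ nu M W := by
  rw [← finrank_Zs_sup M h]
  exact Submodule.finrank_mono (sup_le (Zs_mono M hX) (Zs_mono M hY))

theorem lam_add (M : BM E) {A : Finset E} (hA : A ⊆ M.S) :
    M.lam A + nu M A + nu M (M.S \ A) = nu M M.S := by
  have h1 := r_add_nu M hA
  have h2 := r_add_nu M (Finset.sdiff_subset : M.S \ A ⊆ M.S)
  have h3 := r_add_nu M (Finset.Subset.refl M.S)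
  have h4 := nu_add_le M (Finset.disjoint_sdiff : Disjoint A (M.S \ A)) hA Finset.sdiff_subset
  have h5 := Finset.card_sdiff_add_card_eq_card hA
  have h6 : M.lam A = M.r A + M.r (M.S \ A) - M.r M.S := rfl
  omega

theorem Z_res (M : BM E) (A : Finset E) : (M.res A).Z = Zs M (M.S ∩ A) := by
  ext z
  rw [mem_Zs]
  constructor
  · rintro ⟨h1, h2⟩
    refine ⟨⟨fun e he => h1 e fun h => he (mem_inter.1 h).1, fun f hf => ?_⟩, h1⟩
    rw [← dot_mask_left f z h1]
    exact h2 _ (Submodule.mem_map_of_mem hf)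
  · rintro ⟨h1, h2⟩
    refine ⟨h2, ?_⟩
    rintro _ ⟨f, hf, rfl⟩
    rw [dot_mask_left f z h2]
    exact h1.2 f hf

theorem mem_Z_res {M : BM E} {A : Finset E} (hA : A ⊆ M.S) {z : E → ZMod 2} :
    z ∈ (M.res A).Z ↔ z ∈ M.Z ∧ ∀ e, e ∉ A → z e = 0 := by
  rw [Z_res, mem_Zs, Finset.inter_eq_right.2 hA]

theorem Zs_res (M : BM E) {A X : Finset E} (hA : A ⊆ M.S) (hX : X ⊆ A) :
    Zs (M.res A) X = Zs M X := by
  ext z
  rw [mem_Zs, mem_Zs, mem_Z_res hA]
  constructor
  · rintro ⟨⟨h1, -⟩, h2⟩
    exact ⟨h1, h2⟩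
  · rintro ⟨h1, h2⟩
    exact ⟨⟨h1, fun e he => h2 e fun h => he (hX h)⟩, h2⟩

theorem lam_res_add (M : BM E) {A X : Finset E} (hA : A ⊆ M.S) (hX : X ⊆ A) :
    (M.res A).lam X + nu M X + nu M (A \ X) = nu M A := by
  have hS : (M.res A).S = A := Finset.inter_eq_right.2 hA
  have h1 := lam_add (M.res A) (A := X) (by rw [hS]; exact hX)
  rw [hS] at h1
  unfold nu at *
  rwa [Zs_res M hA hX, Zs_res M hA Finset.sdiff_subset, Zs_res M hA (Finset.Subset.refl A)] at h1

theorem Zs_S (M : BM E) : Zs M M.S = M.Z := by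
  ext z
  rw [mem_Zs]
  exact ⟨fun h => h.1, fun h => ⟨h, h.1⟩⟩

/-- If all cycles are sums of cycles inside `A` and `S \ A`, the connectivity is `0`. -/
theorem lam_eq_zero (M : BM E) {A : Finset E} (hA : A ⊆ M.S)
    (h : ∀ z ∈ M.Z, z ∈ Zs M A ⊔ Zs M (M.S \ A)) : M.lam A = 0 := by
  have h1 := lam_add M hA
  have h2 : nu M M.S ≤ nu M A + nu M (M.S \ A) := by
    rw [← finrank_Zs_sup M Finset.disjoint_sdiff]
    refine Submodule.finrank_mono fun z hz => h z ?_
    rwa [Zs_S] at hz
  omega

theorem nu_erase (M : BM E) (X : Finset E) (e : E) : nu M X ≤ nu M (X.erase e) + 1 := by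
  set φ : Zs M X →ₗ[ZMod 2] ZMod 2 :=
    (LinearMap.proj e : (E → ZMod 2) →ₗ[ZMod 2] ZMod 2).domRestrict (Zs M X) with hφ
  have h1 := LinearMap.finrank_range_add_finrank_ker φ
  have h2 : Module.finrank (ZMod 2) (LinearMap.range φ) ≤ 1 := by
    have := Submodule.finrank_le (LinearMap.range φ)
    rwa [Module.finrank_self] at this
  have h3 : Module.finrank (ZMod 2) (LinearMap.ker φ) ≤ nu M (X.erase e) := by
    have h4 : (LinearMap.ker φ).map (Zs M X).subtype ≤ Zs M (X.erase e) := by
      rintro _ ⟨⟨z, hz⟩, h5, rfl⟩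
      refine ⟨hz.1, fun a ha => ?_⟩
      by_cases hae : a = e
      · rw [hae]
        exact h5
      · exact hz.2 a fun h => ha (mem_erase.2 ⟨hae, h⟩)
    have h5 := Submodule.finrank_mono h4
    rwa [Submodule.finrank_map_subtype_eq] at h5
  have h6 : nu M X = Module.finrank (ZMod 2) (Zs M X) := rfl
  omega

/-- (S3) for the connectivity function. -/
theorem ear_lam (M : BM E) {A L : Finset E} (hA : A ⊆ M.S) (hL : L ⊆ A)
    (H : ∀ P, Ear M A P → Hat M P L ∨ Hat M P (A \ L)) :
    M.lam (L ∪ earU M A (A \ L)) ≤ (M.res A).lam L := by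
  set B := earU M A (A \ L) with hB
  have hBS : B ⊆ M.S \ A := by
    intro e he
    obtain ⟨P, hP, -, heP⟩ := mem_earU.1 he
    exact hP.sub heP
  have hXS : L ∪ B ⊆ M.S := Finset.union_subset (hL.trans hA) (hBS.trans Finset.sdiff_subset)
  have hAX : A \ L ⊆ M.S \ (L ∪ B) := by
    intro e he
    obtain ⟨h1, h2⟩ := mem_sdiff.1 he
    refine mem_sdiff.2 ⟨hA h1, fun h3 => ?_⟩
    rcases mem_union.1 h3 with h4 | h4
    · exact h2 h4
    · exact (mem_sdiff.1 (hBS h4)).2 h1
  have h1 := lam_add M hXS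
  have h2 := lam_res_add M hA hL
  have h3 := Submodule.finrank_sup_add_finrank_inf_eq
    (Zs M (L ∪ B) ⊔ Zs M (M.S \ (L ∪ B))) (Zs M A)
  rw [finrank_Zs_sup M Finset.disjoint_sdiff] at h3
  have h4 : nu M M.S ≤ Module.finrank (ZMod 2)
      ((Zs M (L ∪ B) ⊔ Zs M (M.S \ (L ∪ B))) ⊔ Zs M A : Submodule (ZMod 2) (E → ZMod 2)) := by
    refine Submodule.finrank_mono fun z hz => ?_
    rw [Zs_S] at hz
    exact ear_S3 M hA hL H z hz
  have h5 : nu M L + nu M (A \ L) ≤ Module.finrank (ZMod 2)
      ((Zs M (L ∪ B) ⊔ Zs M (M.S \ (L ∪ B))) ⊓ Zs M A : Submodule (ZMod 2) (E → ZMod 2)) := by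
    rw [← finrank_Zs_sup M (Finset.disjoint_sdiff : Disjoint L (A \ L))]
    refine Submodule.finrank_mono (le_inf (sup_le_sup (Zs_mono M Finset.subset_union_left)
      (Zs_mono M hAX)) (sup_le (Zs_mono M hL) (Zs_mono M Finset.sdiff_subset)))
  have h6 : nu M A = Module.finrank (ZMod 2) (Zs M A) := rfl
  omega

end BG

end SEY
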