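import Pool.Agent.Helper25.SEY.Sc
import Pool.Agent.Helper1.SEY.EarLam

/-!
# Block BG of project SEY, part 3: the ear theorem

Among all pairs `(A, T)` with `A` a proper subset of `S`, `M.res A` an `SC` matroid with property
`Q` and `T` a set of pairwise non-serial elements of `A` take one with `(|T|, |A|)` maximal.
-/

set_option autoImplicit false

namespace SEY

open Finset

variable {E : Type} [Fintype E] [DecidableEq E]

namespace BG

theorem ser_symm {M : BM E} {a b : E} (h : M.Ser a b) : M.Ser b a := fun z hz => (h z hz).symm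

theorem ser_trans {M : BM E} {a b c : E} (h : M.Ser a b) (h' : M.Ser b c) : M.Ser a c :=
  fun z hz => (h z hz).trans (h' z hz)

theorem ser_refl (M : BM E) (a : E) : M.Ser a a := fun _ _ => rfl

theorem res_S (M : BM E) {A : Finset E} (hA : A ⊆ M.S) : (M.res A).S = A :=
  Finset.inter_eq_right.2 hA

theorem BM_ext {M N : BM E} (h1 : M.S = N.S) (h2 : M.R = N.R) : M = N := by
  cases M
  cases N
  simp only [BM.mk.injEq]
  exact ⟨h1, h2⟩

theorem mask_mask {A B : Finset E} (h : A ⊆ B) (f : E → ZMod 2) :
    mask A (mask B f) = mask A f := by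
  funext e
  by_cases he : e ∈ A
  · rw [mask_mem he, mask_mem he, mask_mem (h he)]
  · rw [mask_not_mem he, mask_not_mem he]

theorem map_mask_map {A B : Finset E} (h : A ⊆ B) (R : Submodule (ZMod 2) (E → ZMod 2)) :
    (R.map (mask B)).map (mask A) = R.map (mask A) := by
  ext f
  constructor
  · rintro ⟨_, ⟨g, hg, rfl⟩, rfl⟩
    exact ⟨g, hg, (mask_mask h g).symm⟩
  · rintro ⟨g, hg, rfl⟩
    exact ⟨mask B g, ⟨g, hg, rfl⟩, mask_mask h g⟩

theorem res_res (M : BM E) {A B : Finset E} (h : A ⊆ B) : (M.res B).res A = M.res A := by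
  have hS : (M.S ∩ B) ∩ A = M.S ∩ A := by
    ext e
    simp only [mem_inter]
    exact ⟨fun h' => ⟨h'.1.1, h'.2⟩, fun h' => ⟨⟨h'.1, h h'.2⟩, h'.2⟩⟩
  refine BM_ext hS ?_
  change (M.R.map (mask (M.S ∩ B))).map (mask ((M.S ∩ B) ∩ A)) = M.R.map (mask (M.S ∩ A))
  rw [hS]
  exact map_mask_map (Finset.inter_subset_inter_left h) _

theorem del_eq_res (M : BM E) (D : Finset E) : M.del D = M.res (M.S \ D) := by
  have hS : M.S ∩ (M.S \ D) = M.S \ D := Finset.inter_eq_right.2 Finset.sdiff_subset
  refine BM_ext hS.symm ?_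
  change M.R.map (mask (M.S \ D)) = M.R.map (mask (M.S ∩ (M.S \ D)))
  rw [hS]

theorem res_self (M : BM E) : M.res M.S = M := by
  refine BM_ext (Finset.inter_self _) ?_
  change M.R.map (mask (M.S ∩ M.S)) = M.R
  rw [Finset.inter_self]
  have h0 : ∀ f ∈ M.R, mask M.S f = f := by
    intro f hf
    funext e
    by_cases he : e ∈ M.S
    · exact mask_mem he f
    · rw [mask_not_mem he, M.supp f hf e he]
  ext f
  constructor
  · rintro ⟨g, hg, rfl⟩
    rw [h0 g hg]
    exact hg
  · intro hf
    exact ⟨f, hf, h0 f hf⟩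

theorem res_del_union (M : BM E) {A P : Finset E} (hA : A ⊆ M.S) (hP : P ⊆ M.S \ A) :
    (M.res (A ∪ P)).del P = M.res A := by
  have hS : (M.res (A ∪ P)).S = A ∪ P :=
    res_S M (Finset.union_subset hA (hP.trans Finset.sdiff_subset))
  rw [del_eq_res, hS]
  have h1 : (A ∪ P) \ P = A := by
    ext e
    rw [mem_sdiff, mem_union]
    constructor
    · rintro ⟨h1 | h1, h2⟩
      · exact h1
      · exact absurd h1 h2
    · intro h
      exact ⟨Or.inl h, fun h' => (mem_sdiff.1 (hP h')).2 h⟩
  rw [h1]
  exact res_res M Finset.subset_union_left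

/-- A 3-connected matroid has no parallel pair. -/
theorem no_parallel (M : BM E) (h : M.TC) {x p : E} (hx : x ∈ M.S) (hp : p ∈ M.S) (hne : x ≠ p)
    (hz : ind {x, p} ∈ M.Z) : False := by
  have hsub : ({x, p} : Finset E) ⊆ M.S := by
    intro e he
    rcases mem_insert.1 he with h1 | h1
    · rw [h1]
      exact hx
    · rw [mem_singleton.1 h1]
      exact hp
  have h1 := lam_add M hsub
  have h2 : 1 ≤ nu M {x, p} := by
    have h3 : ind {x, p} ∈ Zs M {x, p} := ⟨hz, fun e he => ind_not_mem he⟩
    have h4 : (ind {x, p} : E → ZMod 2) ≠ 0 := by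
      intro h5
      have := congrFun h5 x
      rw [ind_mem (mem_insert_self x {p})] at this
      exact one_ne_zero this
    have h5 : Zs M {x, p} ≠ ⊥ := fun h6 => h4 (by rwa [h6, Submodule.mem_bot] at h3)
    have h6 := Submodule.finrank_eq_zero (S := Zs M {x, p})
    by_contra h7
    exact h5 (h6.1 (by unfold nu at h7; omega))
  have h3 : M.S \ {x, p} = (M.S.erase x).erase p := by
    ext e
    simp only [mem_sdiff, mem_insert, mem_singleton, mem_erase]
    tauto
  have h4 := nu_erase M M.S x
  have h5 := nu_erase M (M.S.erase x) p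
  rw [← h3] at h5
  have h6 := (h.2 {x, p} hsub).2 (by omega)
  rw [Finset.card_sdiff_of_subset hsub, Finset.card_pair hne] at h6
  have := h.1
  omega

theorem ser_res {M : BM E} {A : Finset E} (hA : A ⊆ M.S) {a b : E} :
    (M.res A).Ser a b ↔ ∀ z ∈ M.Z, (∀ e, e ∉ A → z e = 0) → z a = z b := by
  constructor
  · intro h z hz hz'
    exact h z ((mem_Z_res hA).2 ⟨hz, hz'⟩)
  · intro h z hz
    obtain ⟨h1, h2⟩ := (mem_Z_res hA).1 hz
    exact h z h1 h2

/-- Case 1: an ear whose sum is not in the span of one class. -/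
theorem bg_ext (M : BM E) {A P : Finset E} (hA : A ⊆ M.S) (hsc : (M.res A).SC)
    (hP : Ear M A P)
    (hout : ∀ z ∈ M.Z, (∀ p ∈ P, z p = 1) → (∀ e, e ∉ A → e ∉ P → z e = 0) →
      ∃ a ∈ A, ∃ b ∈ A, z a = 1 ∧ z b = 1 ∧ ¬ (M.res A).Ser a b) :
    (M.res (A ∪ P)).SC ∧ (∀ a ∈ A, ∀ b ∈ A, (M.res (A ∪ P)).Ser a b → (M.res A).Ser a b) ∧
      (∀ a ∈ A, ∀ p ∈ P, ¬ (M.res (A ∪ P)).Ser a p) ∧
      ∀ p ∈ P, ∀ q ∈ P, (M.res (A ∪ P)).Ser p q := by
  have hPS : P ⊆ M.S := hP.sub.trans Finset.sdiff_subset
  have hU : A ∪ P ⊆ M.S := Finset.union_subset hA hPS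
  have hdel := res_del_union M hA hP.sub
  obtain ⟨z0, hz0, hz0P⟩ := hP.ex
  have hmem : ∀ z, z ∈ (M.res (A ∪ P)).Z ↔ z ∈ M.Z ∧ ∀ e, e ∉ A → e ∉ P → z e = 0 := by
    intro z
    rw [mem_Z_res hU]
    constructor
    · rintro ⟨h1, h2⟩
      exact ⟨h1, fun e he he' => h2 e fun h => (mem_union.1 h).elim he he'⟩
    · rintro ⟨h1, h2⟩
      exact ⟨h1, fun e he => h2 e (fun h => he (mem_union_left _ h))
        (fun h => he (mem_union_right _ h))⟩
  obtain ⟨h1, h2⟩ := SC_ext (M.res (A ∪ P)) P (by rw [res_S M hU]; exact Finset.subset_union_right)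
    hP.ne (by rw [hdel]; exact hsc) z0
    ((hmem z0).2 ⟨hz0, fun e he he' => by rw [hz0P e he, ind_not_mem he']⟩)
    (fun p hp => by rw [hz0P p (hP.not_mem p hp), ind_mem hp])
    (fun z hz => by
      obtain ⟨h3, h4⟩ := (hmem z).1 hz
      exact hP.min z h3 h4)
    (fun z hz hz1 => by
      obtain ⟨h3, h4⟩ := (hmem z).1 hz
      obtain ⟨a, ha, b, hb, hza, hzb, hab⟩ := hout z h3 hz1 h4
      refine ⟨a, b, fun h => hP.not_mem a h ha, fun h => hP.not_mem b h hb, hza, hzb, ?_⟩
      rw [hdel]
      exact hab)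
  rw [hdel, res_S M hU] at h2
  refine ⟨h1, fun a ha b hb hab => ?_, fun a ha p hp hap => ?_, fun p hp q hq => ?_⟩
  · rcases (h2 a (mem_union_left _ ha) b (mem_union_left _ hb)).1 hab with h3 | h3
    · exact absurd ha (hP.not_mem a h3.1)
    · exact h3.2.2.1
  · rcases (h2 a (mem_union_left _ ha) p (mem_union_right _ hp)).1 hap with h3 | h3
    · exact absurd ha (hP.not_mem a h3.1)
    · exact absurd hp h3.2.1
  · exact (h2 p (mem_union_right _ hp) q (mem_union_right _ hq)).2 (Or.inl ⟨hp, hq⟩)

/-- Case 2, first part: if all ears have their sum in the span of a class, the classes are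
singletons. -/
theorem bg_single (M : BM E) (h : M.TC) {A : Finset E} (hA : A ⊆ M.S) (hsc : (M.res A).SC)
    (hin : ∀ P, Ear M A P → ∃ z ∈ M.Z, (∀ p ∈ P, z p = 1) ∧ (∀ e, e ∉ A → e ∉ P → z e = 0) ∧
      ∀ a ∈ A, ∀ b ∈ A, z a = 1 → z b = 1 → (M.res A).Ser a b) {x y : E} (hx : x ∈ A)
    (hy : y ∈ A) (hxy : (M.res A).Ser x y) : x = y := by
  classical
  set L := A.filter fun e => (M.res A).Ser x e with hL
  have hLA : L ⊆ A := Finset.filter_subset _ _
  have hLmem : ∀ e, e ∈ L ↔ e ∈ A ∧ (M.res A).Ser x e := fun e => by rw [hL, mem_filter]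
  have H : ∀ P, Ear M A P → Hat M P L ∨ Hat M P (A \ L) := by
    intro P hP
    obtain ⟨z, hz, hz1, hz0, hzs⟩ := hin P hP
    by_cases hc : ∃ e ∈ L, z e = 1
    · left
      obtain ⟨e, heL, hze⟩ := hc
      refine ⟨z, hz, hz1, fun a haP haL => ?_⟩
      by_cases haA : a ∈ A
      · by_contra hza
        have h1 := hzs e (hLA heL) a haA hze (zmod2_ne hza)
        exact haL ((hLmem a).2 ⟨haA, ser_trans ((hLmem e).1 heL).2 h1⟩)
      · exact hz0 a haA haP
    · right
      refine ⟨z, hz, hz1, fun a haP haL => ?_⟩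
      by_cases haA : a ∈ A
      · by_contra hza
        by_cases ha : a ∈ L
        · exact hc ⟨a, ha, zmod2_ne hza⟩
        · exact haL (mem_sdiff.2 ⟨haA, ha⟩)
      · exact hz0 a haA haP
  have h1 := ear_lam M hA hLA H
  set B := earU M A (A \ L) with hB
  have hS := res_S M hA
  have h2 : (M.res A).lam L = 1 := by
    refine SC_lam_class (M.res A) hsc L (by rw [hS]; exact hLA) ⟨x, (hLmem x).2
      ⟨hx, ser_refl _ x⟩⟩ fun a ha b hb => ?_
    exact ser_trans (ser_symm ((hLmem a).1 ha).2) ((hLmem b).1 hb).2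
  rw [h2] at h1
  have hBS : B ⊆ M.S \ A := by
    intro e he
    obtain ⟨P, hP, -, heP⟩ := mem_earU.1 he
    exact hP.sub heP
  have hXS : L ∪ B ⊆ M.S := Finset.union_subset (hLA.trans hA) (hBS.trans Finset.sdiff_subset)
  have hout : ∀ e ∈ A, e ∉ L → e ∈ M.S \ (L ∪ B) := by
    intro e he he'
    refine mem_sdiff.2 ⟨hA he, fun h3 => ?_⟩
    rcases mem_union.1 h3 with h4 | h4
    · exact he' h4
    · exact (mem_sdiff.1 (hBS h4)).2 he
  rcases (h.2 (L ∪ B) hXS).2 h1 with h3 | h3
  · exact Finset.card_le_one.1 h3 x (mem_union_left _ ((hLmem x).2 ⟨hx, ser_refl _ x⟩)) y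
      (mem_union_left _ ((hLmem y).2 ⟨hy, hxy⟩))
  · exfalso
    obtain ⟨⟨s, hs, hs'⟩, -⟩ := hsc
    rw [hS] at hs
    have h4 : ∀ i j, i ≠ j → s i ∈ L → s j ∈ L → False := by
      intro i j hij hi hj
      exact hs' i j hij (ser_trans (ser_symm ((hLmem _).1 hi).2) ((hLmem _).1 hj).2)
    have h5 : ∀ i j, i ≠ j → s i ∉ L → s j ∉ L → False := by
      intro i j hij hi hj
      have := Finset.card_le_one.1 h3 (s i) (hout _ (hs i) hi) (s j) (hout _ (hs j) hj)
      apply hs' i j hij
      rw [this]
      exact ser_refl _ _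
    by_cases h6 : s 0 ∈ L
    · by_cases h7 : s 1 ∈ L
      · exact h4 0 1 (by decide) h6 h7
      · by_cases h8 : s 2 ∈ L
        · exact h4 0 2 (by decide) h6 h8
        · exact h5 1 2 (by decide) h7 h8
    · by_cases h7 : s 1 ∈ L
      · by_cases h8 : s 2 ∈ L
        · exact h4 1 2 (by decide) h7 h8
        · exact h5 0 2 (by decide) h6 h8
      · exact h5 0 1 (by decide) h6 h7

/-- Case 2, second part: replace an element by an ear. -/
theorem bg_switch (M : BM E) {A P : Finset E} (hA : A ⊆ M.S) (hsc : (M.res A).SC)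
    (hsing : ∀ a ∈ A, ∀ b ∈ A, (M.res A).Ser a b → a = b) (hP : Ear M A P) {x : E} (hx : x ∈ A)
    (hz : ind (insert x P) ∈ M.Z) :
    (M.res (A.erase x ∪ P)).SC ∧ ∀ p ∈ P, ∀ a ∈ insert p (A.erase x),
      ∀ b ∈ insert p (A.erase x), a ≠ b → ¬ (M.res (A.erase x ∪ P)).Ser a b := by
  have hPS : P ⊆ M.S := hP.sub.trans Finset.sdiff_subset
  have hA' : A.erase x ∪ P ⊆ M.S :=
    Finset.union_subset ((Finset.erase_subset _ _).trans hA) hPS
  have hxP : x ∉ P := fun h => hP.not_mem x h hx
  have hTC : (M.res A).TC := (TC_iff_SC _).2 ⟨hsc, by rw [res_S M hA]; exact hsing⟩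
  have hmap := SC_of_map (M.res (A.erase x ∪ P)) (M.res A) hTC
    (fun e => if e ∈ P then x else e)
    (by
      intro e he
      rw [res_S M hA'] at he
      rw [res_S M hA]
      by_cases h1 : e ∈ P
      · simp only [if_pos h1]
        exact hx
      · simp only [if_neg h1]
        rcases mem_union.1 he with h2 | h2
        · exact mem_of_mem_erase h2
        · exact absurd h2 h1)
    (by
      intro i hi
      rw [res_S M hA] at hi
      rw [res_S M hA']
      by_cases h1 : i = x
      · obtain ⟨p, hp⟩ := hP.ne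
        refine ⟨p, mem_union_right _ hp, ?_⟩
        simp only [if_pos hp]
        exact h1.symm
      · refine ⟨i, mem_union_left _ (mem_erase.2 ⟨h1, hi⟩), ?_⟩
        have h2 : i ∉ P := fun h => hP.not_mem i h hi
        simp only [if_neg h2])
    (by
      intro z hz0
      rw [res_S M hA'] at hz0
      rw [mem_Z_res hA', res_S M hA']
      have hzx : z x = 0 := hz0 x fun h => by
        rcases mem_union.1 h with h1 | h1
        · exact (mem_erase.1 h1).1 rfl
        · exact hxP h1
      have hzo : ∀ e, e ∉ A → e ∉ P → z e = 0 := fun e he he' => hz0 e fun h => by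
        rcases mem_union.1 h with h1 | h1
        · exact he (mem_of_mem_erase h1)
        · exact he' h1
      constructor
      · rintro ⟨hzZ, -⟩
        rcases hP.min z hzZ hzo with h1 | h1
        · refine ⟨z, (mem_Z_res hA).2 ⟨hzZ, fun e he => ?_⟩, fun e he => ?_⟩
          · by_cases h2 : e ∈ P
            · exact h1 e h2
            · exact hzo e he h2
          · by_cases h2 : e ∈ P
            · simp only [if_pos h2]
              rw [hzx, h1 e h2]
            · simp only [if_neg h2]
        · refine ⟨z + ind (insert x P), (mem_Z_res hA).2 ⟨M.Z.add_mem hzZ hz, fun e he => ?_⟩,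
            fun e he => ?_⟩
          · by_cases h2 : e ∈ P
            · rw [Pi.add_apply, h1 e h2, ind_mem (mem_insert_of_mem h2)]
              decide
            · rw [Pi.add_apply, hzo e he h2, ind_not_mem, add_zero]
              intro h3
              rcases mem_insert.1 h3 with h4 | h4
              · exact he (h4 ▸ hx)
              · exact h2 h4
          · by_cases h2 : e ∈ P
            · simp only [if_pos h2]
              rw [Pi.add_apply, hzx, h1 e h2, ind_mem (mem_insert_self _ _), zero_add]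
            · simp only [if_neg h2]
              have h3 : e ∉ insert x P := fun h3 => by
                rcases mem_insert.1 h3 with h4 | h4
                · rw [h4] at he
                  rcases mem_union.1 he with h5 | h5
                  · exact (mem_erase.1 h5).1 rfl
                  · exact hxP h5
                · exact h2 h4
              rw [Pi.add_apply, ind_not_mem h3, add_zero]
      · rintro ⟨w, hw, hwz⟩
        obtain ⟨hwZ, hw0⟩ := (mem_Z_res hA).1 hw
        refine ⟨?_, hz0⟩
        have hwA : ∀ e ∈ A, e ≠ x → z e = w e := by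
          intro e he he'
          have h1 := hwz e (mem_union_left _ (mem_erase.2 ⟨he', he⟩))
          rw [if_neg fun h => hP.not_mem e h he] at h1
          exact h1
        have hwP : ∀ e ∈ P, z e = w x := by
          intro e he
          have h1 := hwz e (mem_union_right _ he)
          rwa [if_pos he] at h1
        rcases zmod2_cases (w x) with h1 | h1
        · have h2 : z = w := by
            funext e
            by_cases h3 : e ∈ A
            · by_cases h4 : e = x
              · rw [h4, hzx, h1]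
              · exact hwA e h3 h4
            · rw [hw0 e h3]
              by_cases h4 : e ∈ P
              · rw [hwP e h4, h1]
              · exact hzo e h3 h4
          rw [h2]
          exact hwZ
        · have h2 : z = w + ind (insert x P) := by
            funext e
            rw [Pi.add_apply]
            by_cases h3 : e ∈ A
            · by_cases h4 : e = x
              · rw [h4, hzx, h1, ind_mem (mem_insert_self _ _)]
                decide
              · rw [hwA e h3 h4, ind_not_mem, add_zero]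
                intro h5
                rcases mem_insert.1 h5 with h6 | h6
                · exact h4 h6
                · exact hP.not_mem e h6 h3
            · rw [hw0 e h3, zero_add]
              by_cases h4 : e ∈ P
              · rw [hwP e h4, h1, ind_mem (mem_insert_of_mem h4)]
              · rw [hzo e h3 h4, ind_not_mem]
                intro h5
                rcases mem_insert.1 h5 with h6 | h6
                · exact h3 (h6 ▸ hx)
                · exact h4 h6
          rw [h2]
          exact M.Z.add_mem hwZ hz)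
  refine ⟨hmap.1, fun p hp a ha b hb hab hser => hab ?_⟩
  have hmemA' : ∀ a ∈ insert p (A.erase x), a ∈ (M.res (A.erase x ∪ P)).S := by
    intro a ha
    rw [res_S M hA']
    rcases mem_insert.1 ha with h1 | h1
    · rw [h1]
      exact mem_union_right _ hp
    · exact mem_union_left _ h1
  have h1 := (hmap.2 a (hmemA' a ha) b (hmemA' b hb)).1 hser
  have h2 : ∀ c ∈ insert p (A.erase x), (c = p ∧ (if c ∈ P then x else c) = x) ∨
      (c ≠ x ∧ (if c ∈ P then x else c) = c) := by
    intro c hc
    rcases mem_insert.1 hc with h3 | h3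
    · left
      refine ⟨h3, ?_⟩
      rw [h3, if_pos hp]
    · right
      obtain ⟨h4, h5⟩ := mem_erase.1 h3
      exact ⟨h4, if_neg fun h => hP.not_mem c h h5⟩
  rcases h2 a ha with ⟨h3, h4⟩ | ⟨h3, h4⟩ <;> rcases h2 b hb with ⟨h5, h6⟩ | ⟨h5, h6⟩
  · rw [h3, h5]
  · rw [h4, h6] at h1
    exact absurd h1.symm h5
  · rw [h4, h6] at h1
    exact absurd h1 h3
  · rw [h4, h6] at h1
    exact h1

/-- The ear theorem. -/
theorem bg_main (M : BM E) (h : M.TC) (Q : Finset E → Prop)
    (mono : ∀ A B : Finset E, A ⊆ B → B ⊆ M.S → Q A → Q B)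
    (sw : ∀ (A : Finset E) (x : E) (P : Finset E), A ⊆ M.S → x ∈ A → Ear M A P →
      ind (insert x P) ∈ M.Z → Q A → Q (A.erase x ∪ P))
    (A0 : Finset E) (hA0 : A0 ⊂ M.S) (hsc : (M.res A0).SC) (hQ : Q A0) :
    ∃ e ∈ M.S, (M.del {e}).SC ∧ Q (M.S.erase e) := by
  classical
  set K := Fintype.card E with hK
  set G : Finset (Finset E × Finset E) := univ.filter fun p =>
    p.1 ⊂ M.S ∧ (M.res p.1).SC ∧ Q p.1 ∧ p.2 ⊆ p.1 ∧
      ∀ a ∈ p.2, ∀ b ∈ p.2, a ≠ b → ¬ (M.res p.1).Ser a b with hG
  have hGmem : ∀ A T : Finset E, (A, T) ∈ G ↔ (A ⊂ M.S ∧ (M.res A).SC ∧ Q A ∧ T ⊆ A ∧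
      ∀ a ∈ T, ∀ b ∈ T, a ≠ b → ¬ (M.res A).Ser a b) := by
    intro A T
    rw [hG, mem_filter]
    exact ⟨fun h => h.2, fun h => ⟨mem_univ _, h⟩⟩
  obtain ⟨⟨A, T⟩, hAT, hmax⟩ := Finset.exists_max_image G
    (fun p => p.2.card * (K + 1) + p.1.card)
    ⟨(A0, ∅), (hGmem _ _).2 ⟨hA0, hsc, hQ, Finset.empty_subset _, fun a ha =>
      absurd ha (Finset.notMem_empty a)⟩⟩
  obtain ⟨hAS, hAsc, hAQ, hTA, hTn⟩ := (hGmem A T).1 hAT
  have hA : A ⊆ M.S := hAS.1
  have hmax' : ∀ A' T' : Finset E, (A', T') ∈ G →
      T'.card * (K + 1) + A'.card ≤ T.card * (K + 1) + A.card := fun A' T' h' => hmax _ h'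
  have hAK : A.card ≤ K := Finset.card_le_univ A
  by_cases hc : ∃ P, Ear M A P ∧ ∀ z ∈ M.Z, (∀ p ∈ P, z p = 1) →
      (∀ e, e ∉ A → e ∉ P → z e = 0) → ∃ a ∈ A, ∃ b ∈ A, z a = 1 ∧ z b = 1 ∧
        ¬ (M.res A).Ser a b
  · obtain ⟨P, hP, hPout⟩ := hc
    obtain ⟨h1, h2, h3, h4⟩ := bg_ext M hA hAsc hP hPout
    have hPS : P ⊆ M.S := hP.sub.trans Finset.sdiff_subset
    have hU : A ∪ P ⊆ M.S := Finset.union_subset hA hPS
    obtain ⟨p, hp⟩ := hP.ne
    by_cases hE : A ∪ P = M.S
    · rw [hE, res_self] at h4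
      have h5 := ((TC_iff_SC M).1 h).2
      have hPp : P = {p} := by
        ext q
        rw [mem_singleton]
        constructor
        · intro hq
          exact h5 q (hPS hq) p (hPS hp) (h4 q hq p hp)
        · intro hq
          rw [hq]
          exact hp
      have hAe : A = M.S.erase p := by
        ext e
        rw [mem_erase, ← hE, mem_union, hPp, mem_singleton]
        constructor
        · intro he
          refine ⟨fun h6 => hP.not_mem p hp (h6 ▸ he), Or.inl he⟩
        · rintro ⟨h6, h7 | h7⟩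
          · exact h7
          · exact absurd h7 h6
      refine ⟨p, hPS hp, ?_, ?_⟩
      · rw [del_eq_res, Finset.sdiff_singleton_eq_erase, ← hAe]
        exact hAsc
      · rw [← hAe]
        exact hAQ
    · exfalso
      have hpT : p ∉ T := fun h6 => hP.not_mem p hp (hTA h6)
      have h6 := hmax' (A ∪ P) (insert p T) ((hGmem _ _).2 ⟨Finset.ssubset_iff_subset_ne.2
        ⟨hU, hE⟩, h1, mono A _ Finset.subset_union_left hU hAQ, ?_, ?_⟩)
      · rw [Finset.card_insert_of_notMem hpT] at h6
        have : (T.card + 1) * (K + 1) = T.card * (K + 1) + (K + 1) := by ring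
        omega
      · refine Finset.insert_subset (mem_union_right _ hp) (hTA.trans Finset.subset_union_left)
      · intro a ha b hb hab hser
        rcases mem_insert.1 ha with h7 | h7 <;> rcases mem_insert.1 hb with h8 | h8
        · exact hab (h7.trans h8.symm)
        · rw [h7] at hser
          exact h3 b (hTA h8) p hp (ser_symm hser)
        · rw [h8] at hser
          exact h3 a (hTA h7) p hp hser
        · exact hTn a h7 b h8 hab (h2 a (hTA h7) b (hTA h8) hser)
  · have hin : ∀ P, Ear M A P → ∃ z ∈ M.Z, (∀ p ∈ P, z p = 1) ∧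
        (∀ e, e ∉ A → e ∉ P → z e = 0) ∧
        ∀ a ∈ A, ∀ b ∈ A, z a = 1 → z b = 1 → (M.res A).Ser a b := by
      intro P hP
      by_contra hcon
      refine hc ⟨P, hP, fun z hz h1 h0 => ?_⟩
      by_contra hcon'
      refine hcon ⟨z, hz, h1, h0, fun a ha b hb hza hzb => ?_⟩
      by_contra hcon''
      exact hcon' ⟨a, ha, b, hb, hza, hzb, hcon''⟩
    have hsing : ∀ a ∈ A, ∀ b ∈ A, (M.res A).Ser a b → a = b := fun a ha b hb hab =>
      bg_single M h hA hAsc hin ha hb hab
    -- an ear with nonzero sum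
    obtain ⟨P, hP, x, hx, hxz⟩ : ∃ P, Ear M A P ∧ ∃ x ∈ A, ind (insert x P) ∈ M.Z := by
      by_contra hcon
      have hall : ∀ P, Ear M A P → ind P ∈ M.Z := by
        intro P hP
        obtain ⟨z, hz, hz1, hz0, hzs⟩ := hin P hP
        by_cases hc' : ∃ a ∈ A, z a = 1
        · exfalso
          obtain ⟨a, ha, hza⟩ := hc'
          apply hcon
          refine ⟨P, hP, a, ha, ?_⟩
          have : ind (insert a P) = z := by
            funext e
            by_cases he : e ∈ insert a P
            · rw [ind_mem he]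
              rcases mem_insert.1 he with h1 | h1
              · rw [h1, hza]
              · rw [hz1 e h1]
            · rw [ind_not_mem he]
              rw [mem_insert, not_or] at he
              by_cases heA : e ∈ A
              · by_contra h1
                exact he.1 (hsing a ha e heA (hzs a ha e heA hza
                  (zmod2_ne fun h2 => h1 h2.symm))).symm
              · exact (hz0 e heA he.2).symm
          rw [this]
          exact hz
        · have : ind P = z := by
            funext e
            by_cases he : e ∈ P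
            · rw [ind_mem he, hz1 e he]
            · rw [ind_not_mem he]
              by_cases heA : e ∈ A
              · by_contra h1
                exact hc' ⟨e, heA, zmod2_ne fun h2 => h1 h2.symm⟩
              · exact (hz0 e heA he).symm
          rw [this]
          exact hz
      have h0 : M.lam A = 0 := by
        refine lam_eq_zero M hA fun z hz => ?_
        obtain ⟨w, hw, hwz⟩ := decomp M A (Zs M (M.S \ A)) (fun w hw => hw.1) _ z hz rfl
          (fun Q hQ _ => ⟨ind Q, ⟨hall Q hQ, fun e he => ind_not_mem fun h1 => he (hQ.sub h1)⟩,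
            fun e _ => rfl⟩)
        have h1 : z + w ∈ Zs M A := ⟨M.Z.add_mem hz hw.1, fun e he => by
          rw [Pi.add_apply, hwz e he, zmod2_add_self]⟩
        have h2 : z = (z + w) + w := by
          funext e
          rw [Pi.add_apply, Pi.add_apply, add_assoc, zmod2_add_self, add_zero]
        rw [h2]
        exact Submodule.add_mem _ (Submodule.mem_sup_left h1) (Submodule.mem_sup_right hw)
      rcases (h.2 A hA).1 h0 with h1 | h1
      · obtain ⟨⟨s, hs, -⟩, -⟩ := hAsc
        have := hs 0
        rw [res_S M hA, h1] at this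
        exact Finset.notMem_empty _ this
      · exact hAS.ne h1
    obtain ⟨p, hp⟩ := hP.ne
    have hPS : P ⊆ M.S := hP.sub.trans Finset.sdiff_subset
    have hxP : x ∉ P := fun h => hP.not_mem x h hx
    have hP2 : 2 ≤ P.card := by
      by_contra h1
      have h2 : P.card = 1 := by
        have := Finset.card_pos.2 hP.ne
        omega
      obtain ⟨q, hq⟩ := Finset.card_eq_one.1 h2
      rw [hq] at hxz hPS hxP
      exact no_parallel M h (hA hx) (hPS (mem_singleton_self q))
        (fun h3 => hxP (by rw [h3]; exact mem_singleton_self q)) hxz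
    obtain ⟨h1, h2⟩ := bg_switch M hA hAsc hsing hP hx hxz
    have hA' : A.erase x ∪ P ⊆ M.S :=
      Finset.union_subset ((Finset.erase_subset _ _).trans hA) hPS
    have h3 := hmax' (A.erase x ∪ P) (insert p (A.erase x)) ((hGmem _ _).2
      ⟨Finset.ssubset_iff_subset_ne.2 ⟨hA', fun h3 => ?_⟩, h1, sw A x P hA hx hP hxz hAQ, ?_,
        h2 p hp⟩)
    · exfalso
      have h4 : p ∉ A.erase x := fun h => hP.not_mem p hp (mem_of_mem_erase h)
      have h5 : Disjoint (A.erase x) P := by
        rw [Finset.disjoint_left]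
        intro e he he'
        exact hP.not_mem e he' (mem_of_mem_erase he)
      rw [Finset.card_insert_of_notMem h4, Finset.card_union_of_disjoint h5,
        Finset.card_erase_of_mem hx] at h3
      have h6 := Finset.card_pos.2 ⟨x, hx⟩
      have h7 := Finset.card_le_card hTA
      have h8 : T.card * (K + 1) ≤ A.card * (K + 1) := Nat.mul_le_mul_right _ h7
      have h9 : A.card - 1 + 1 = A.card := by omega
      rw [h9] at h3
      omega
    · have h4 : x ∈ A.erase x ∪ P := by
        rw [h3]
        exact hA hx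
      rcases mem_union.1 h4 with h5 | h5
      · exact (mem_erase.1 h5).1 rfl
      · exact hxP h5
    · refine Finset.insert_subset (mem_union_right _ hp) Finset.subset_union_left

end BG

end SEY
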