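import Pool.Agent.Helper1.SEY.ConvGen

/-!
# Block CONV of project SEY: the finite checks for `K4` and `K33`
-/

set_option autoImplicit false

namespace SEY

open Finset

variable {E : Type} [Fintype E] [DecidableEq E]

namespace CV

theorem cert_K4 : FinCert F7 F7s (extc K4s ![1, 1, 1]) ![3, 4, 5, 0, 1, 2, 6] ∅
    ![![1, 0, 0], ![0, 1, 0], ![0, 0, 1]]
    ![![1, 0, 0, 1, 1, 0, 0],
      ![0, 1, 0, 1, 0, 1, 0],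
      ![0, 0, 1, 0, 1, 1, 0],
      ![0, 0, 0, 1, 1, 1, 1]] := by
  decide

theorem cert_0110 : FinCert F7 F7s (extc K33s ![0, 1, 1, 0]) ![7, 5, 4, 9, 1, 3, 8] {0}
    ![![0, 0, 1, 1], ![0, 1, 0, 1], ![1, 0, 0, 1]]
    ![![0, 0, 0, 0, 0, 1, 0, 1, 0, 1],
      ![0, 1, 0, 0, 1, 0, 0, 1, 0, 0],
      ![0, 0, 0, 1, 1, 1, 0, 0, 0, 0],
      ![1, 0, 0, 0, 1, 1, 0, 1, 1, 0]] := by
  decide

theorem cert_0111 : FinCert F7 F7s (extc K33s ![0, 1, 1, 1]) ![8, 5, 4, 0, 6, 3, 9] {1}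
    ![![0, 0, 0, 1], ![0, 1, 0, 0], ![1, 0, 1, 0]]
    ![![1, 1, 0, 0, 0, 1, 0, 0, 1, 0],
      ![0, 1, 0, 0, 1, 0, 1, 0, 1, 0],
      ![0, 0, 0, 1, 1, 1, 0, 0, 0, 0],
      ![0, 1, 0, 0, 1, 1, 0, 0, 1, 1]] := by
  decide

theorem cert_1001 : FinCert F7 F7s (extc K33s ![1, 0, 0, 1]) ![7, 5, 4, 9, 1, 3, 8] {0}
    ![![0, 0, 1, 1], ![0, 1, 0, 1], ![1, 0, 0, 1]]
    ![![1, 0, 0, 0, 0, 1, 0, 1, 0, 1],
      ![0, 1, 0, 0, 1, 0, 0, 1, 0, 0],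
      ![0, 0, 0, 1, 1, 1, 0, 0, 0, 0],
      ![1, 0, 0, 0, 1, 1, 0, 1, 1, 0]] := by
  decide

theorem cert_1011 : FinCert F7 F7s (extc K33s ![1, 0, 1, 1]) ![7, 5, 4, 6, 0, 3, 9] {2}
    ![![0, 0, 1, 0], ![0, 1, 0, 1], ![1, 0, 0, 0]]
    ![![0, 0, 1, 0, 0, 1, 1, 1, 0, 0],
      ![1, 0, 1, 0, 1, 0, 0, 1, 0, 0],
      ![0, 0, 0, 1, 1, 1, 0, 0, 0, 0],
      ![0, 0, 1, 0, 1, 1, 0, 1, 0, 1]] := by
  decide

theorem cert_1101 : FinCert F7 F7s (extc K33s ![1, 1, 0, 1]) ![8, 5, 4, 0, 6, 3, 9] {1}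
    ![![0, 0, 0, 1], ![0, 1, 0, 0], ![1, 0, 1, 0]]
    ![![1, 1, 0, 0, 0, 1, 0, 0, 1, 0],
      ![0, 1, 0, 0, 1, 0, 1, 0, 1, 0],
      ![0, 0, 0, 1, 1, 1, 0, 0, 0, 0],
      ![0, 0, 0, 0, 1, 1, 0, 0, 1, 1]] := by
  decide

theorem cert_1110 : FinCert F7 F7s (extc K33s ![1, 1, 1, 0]) ![7, 5, 4, 6, 0, 3, 9] {2}
    ![![0, 0, 1, 0], ![0, 1, 0, 1], ![1, 0, 0, 0]]
    ![![0, 0, 1, 0, 0, 1, 1, 1, 0, 0],
      ![1, 0, 1, 0, 1, 0, 0, 1, 0, 0],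
      ![0, 0, 0, 1, 1, 1, 0, 0, 0, 0],
      ![0, 0, 0, 0, 1, 1, 0, 1, 0, 1]] := by
  decide

theorem cases_K4 : ∀ v : Fin 3 → ZMod 2, v = 0 ∨ (∃ i, ∀ j, v j = K4s j i) ∨ v = ![1, 1, 1] := by
  decide

theorem cases_K33 : ∀ v : Fin 4 → ZMod 2, v = 0 ∨ (∃ i, ∀ j, v j = K33s j i) ∨
    v = ![0, 1, 1, 0] ∨ v = ![0, 1, 1, 1] ∨ v = ![1, 0, 0, 1] ∨ v = ![1, 0, 1, 1] ∨
    v = ![1, 1, 0, 1] ∨ v = ![1, 1, 1, 0] := by
  decide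

theorem conv_K4 (M : BM E) (hF : NoF M) (h : HasMinor K4 M) : HasT K4 M := by
  refine conv_gen compl_K4 0 M (fun v => ?_) h
  rcases cases_K4 v with h1 | h1 | h1
  · exact Or.inl h1
  · exact Or.inr (Or.inl h1)
  · refine Or.inr (Or.inr fun h2 => ?_)
    subst h1
    exact hF.2 (hasMinor_F7_dual.1 (h2.of_finCert compl_F7 cert_K4))

theorem conv_K33 (M : BM E) (hF : NoF M) (h : HasMinor K33 M) : HasT K33 M := by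
  refine conv_gen compl_K33 0 M (fun v => ?_) h
  rcases cases_K33 v with h1 | h1 | h1 | h1 | h1 | h1 | h1 | h1
  · exact Or.inl h1
  · exact Or.inr (Or.inl h1)
  · refine Or.inr (Or.inr fun h2 => ?_)
    subst h1
    exact hF.2 (hasMinor_F7_dual.1 (h2.of_finCert compl_F7 cert_0110))
  · refine Or.inr (Or.inr fun h2 => ?_)
    subst h1
    exact hF.2 (hasMinor_F7_dual.1 (h2.of_finCert compl_F7 cert_0111))
  · refine Or.inr (Or.inr fun h2 => ?_)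
    subst h1
    exact hF.2 (hasMinor_F7_dual.1 (h2.of_finCert compl_F7 cert_1001))
  · refine Or.inr (Or.inr fun h2 => ?_)
    subst h1
    exact hF.2 (hasMinor_F7_dual.1 (h2.of_finCert compl_F7 cert_1011))
  · refine Or.inr (Or.inr fun h2 => ?_)
    subst h1
    exact hF.2 (hasMinor_F7_dual.1 (h2.of_finCert compl_F7 cert_1101))
  · refine Or.inr (Or.inr fun h2 => ?_)
    subst h1
    exact hF.2 (hasMinor_F7_dual.1 (h2.of_finCert compl_F7 cert_1110))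

end CV

end SEY
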