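import Pool.Agent.Helper25.SEY.Defs

/-!
# Block BG of project SEY, part 1: ears

`Ear M A P`: `P` is a circuit of `M / A` (minimal nonempty trace outside of `A` of a cycle).
`Hat M P V`: the sum of `P` lies in the span of `V` (some cycle contains `P` and lies inside
`P ∪ V`).  `Zs M X`: the cycles supported in `X`.

`ear_sep` (statement (S3) of the paper proof): if every ear of `A` has its sum in the span of `L`
or in the span of `A \ L`, then there is `B ⊆ S \ A`, containing all ears whose sum is not in the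
span of `A \ L`, such that every cycle of `M` is a sum of cycles inside `L ∪ B`, inside
`S \ (L ∪ B)` and inside `A`.
-/

set_option autoImplicit false

namespace SEY

open Finset

variable {E : Type} [Fintype E] [DecidableEq E]

/-- The cycles supported in `X`. -/
def Zs (M : BM E) (X : Finset E) : Submodule (ZMod 2) (E → ZMod 2) where
  carrier := {z | z ∈ M.Z ∧ ∀ e, e ∉ X → z e = 0}
  add_mem' := by
    rintro z w ⟨hz, hz'⟩ ⟨hw, hw'⟩
    exact ⟨M.Z.add_mem hz hw, fun e he => by simp [hz' e he, hw' e he]⟩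
  zero_mem' := ⟨M.Z.zero_mem, fun _ _ => rfl⟩
  smul_mem' := by
    rintro c z ⟨hz, hz'⟩
    exact ⟨M.Z.smul_mem c hz, fun e he => by simp [hz' e he]⟩

theorem mem_Zs {M : BM E} {X : Finset E} {z : E → ZMod 2} :
    z ∈ Zs M X ↔ z ∈ M.Z ∧ ∀ e, e ∉ X → z e = 0 := Iff.rfl

/-- `P` is an ear of `A`. -/
def Ear (M : BM E) (A P : Finset E) : Prop :=
  P ⊆ M.S \ A ∧ P.Nonempty ∧ (∃ z ∈ M.Z, ∀ e, e ∉ A → z e = ind P e) ∧
    ∀ z ∈ M.Z, (∀ e, e ∉ A ∪ P → z e = 0) → (∀ p ∈ P, z p = 0) ∨ (∀ p ∈ P, z p = 1)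

theorem Ear.sub {M : BM E} {A P : Finset E} (h : Ear M A P) : P ⊆ M.S \ A := h.1

theorem Ear.ne {M : BM E} {A P : Finset E} (h : Ear M A P) : P.Nonempty := h.2.1

theorem Ear.ex {M : BM E} {A P : Finset E} (h : Ear M A P) :
    ∃ z ∈ M.Z, ∀ e, e ∉ A → z e = ind P e := h.2.2.1

theorem Ear.min {M : BM E} {A P : Finset E} (h : Ear M A P) (z : E → ZMod 2) (hz : z ∈ M.Z)
    (h0 : ∀ e, e ∉ A → e ∉ P → z e = 0) : (∀ e ∈ P, z e = 0) ∨ (∀ e ∈ P, z e = 1) :=
  h.2.2.2 z hz fun e he => h0 e (fun h' => he (mem_union_left _ h'))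
    (fun h' => he (mem_union_right _ h'))

theorem Ear.mk {M : BM E} {A P : Finset E} (h1 : P ⊆ M.S \ A) (h2 : P.Nonempty)
    (h3 : ∃ z ∈ M.Z, ∀ e, e ∉ A → z e = ind P e)
    (h4 : ∀ z ∈ M.Z, (∀ e, e ∉ A → e ∉ P → z e = 0) →
      (∀ e ∈ P, z e = 0) ∨ (∀ e ∈ P, z e = 1)) : Ear M A P :=
  ⟨h1, h2, h3, fun z hz h0 => h4 z hz fun e ha hp => h0 e fun h' =>
    (mem_union.1 h').elim ha hp⟩

/-- The sum of `P` lies in the span of `V`. -/
def Hat (M : BM E) (P V : Finset E) : Prop :=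
  ∃ z ∈ M.Z, (∀ e ∈ P, z e = 1) ∧ ∀ e, e ∉ P → e ∉ V → z e = 0

theorem zmod2_cases (x : ZMod 2) : x = 0 ∨ x = 1 := by
  revert x
  decide

theorem zmod2_ne {x : ZMod 2} (h : x ≠ 0) : x = 1 := (zmod2_cases x).resolve_left h

theorem zmod2_add_self (x : ZMod 2) : x + x = 0 := by
  revert x
  decide

theorem ind_mem {A : Finset E} {e : E} (h : e ∈ A) : ind A e = 1 := if_pos h

theorem ind_not_mem {A : Finset E} {e : E} (h : e ∉ A) : ind A e = 0 := if_neg h

/-- The part of the support outside of `A`. -/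
def osup (A : Finset E) (z : E → ZMod 2) : Finset E := univ.filter fun e => e ∉ A ∧ z e = 1

theorem mem_osup {A : Finset E} {z : E → ZMod 2} {e : E} :
    e ∈ osup A z ↔ e ∉ A ∧ z e = 1 := by
  simp [osup]

theorem osup_ind {A : Finset E} {z : E → ZMod 2} {e : E} (he : e ∉ A) :
    z e = ind (osup A z) e := by
  by_cases h : z e = 1
  · rw [h, ind_mem (mem_osup.2 ⟨he, h⟩)]
  · rw [ind_not_mem fun h' => h (mem_osup.1 h').2]
    exact (zmod2_cases _).resolve_right h

/-- Every cycle which is not inside `A` contains an ear. -/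
theorem exists_ear (M : BM E) (A : Finset E) {z : E → ZMod 2} (hz : z ∈ M.Z)
    (h : (osup A z).Nonempty) : ∃ P, Ear M A P ∧ P ⊆ osup A z := by
  classical
  obtain ⟨w, hw, hmin⟩ := Finset.exists_min_image
    (univ.filter fun w : E → ZMod 2 => w ∈ M.Z ∧ (osup A w).Nonempty ∧ osup A w ⊆ osup A z)
    (fun w => (osup A w).card) ⟨z, by simp [hz, h]⟩
  obtain ⟨hw1, hw2, hw3⟩ : w ∈ M.Z ∧ (osup A w).Nonempty ∧ osup A w ⊆ osup A z := by
    simpa using hw
  refine ⟨osup A w, Ear.mk ?_ hw2 ⟨w, hw1, fun e he => osup_ind he⟩ ?_, hw3⟩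
  · intro e he
    obtain ⟨h1, h2⟩ := mem_osup.1 he
    refine mem_sdiff.2 ⟨?_, h1⟩
    by_contra h3
    rw [hw1.1 e h3] at h2
    exact zero_ne_one h2
  · intro y hy hy0
    by_cases h0 : (osup A y).Nonempty
    · right
      have hsub : osup A y ⊆ osup A w := by
        intro e he
        by_contra h1
        have h2 := mem_osup.1 he
        rw [hy0 e h2.1 h1] at h2
        exact zero_ne_one h2.2
      have hc := hmin y (by simp [hy, h0, hsub.trans hw3])
      have heq := Finset.eq_of_subset_of_card_le hsub hc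
      intro e he
      rw [← heq] at he
      exact (mem_osup.1 he).2
    · left
      intro e he
      rw [Finset.not_nonempty_iff_eq_empty] at h0
      by_contra h1
      have : e ∈ osup A y := mem_osup.2 ⟨(mem_osup.1 he).1, zmod2_ne h1⟩
      rw [h0] at this
      exact absurd this (Finset.notMem_empty e)

/-- A property (membership in a subspace `W`) of all ears inside a cycle passes to the cycle. -/
theorem decomp (M : BM E) (A : Finset E) (W : Submodule (ZMod 2) (E → ZMod 2))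
    (hW : ∀ w ∈ W, w ∈ M.Z) :
    ∀ (n : ℕ) (z : E → ZMod 2), z ∈ M.Z → (osup A z).card = n →
      (∀ Q, Ear M A Q → Q ⊆ osup A z → ∃ w ∈ W, ∀ e, e ∉ A → w e = ind Q e) →
      ∃ w ∈ W, ∀ e, e ∉ A → w e = z e := by
  intro n
  induction n using Nat.strong_induction_on with
  | _ n ih =>
    intro z hz hn h
    by_cases h0 : (osup A z).Nonempty
    · obtain ⟨Q, hQ, hQz⟩ := exists_ear M A hz h0
      obtain ⟨w, hw, hwQ⟩ := h Q hQ hQz
      have hz' : z + w ∈ M.Z := M.Z.add_mem hz (hW w hw)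
      have hos : osup A (z + w) = osup A z \ Q := by
        ext e
        rw [mem_osup, mem_sdiff, mem_osup, Pi.add_apply]
        constructor
        · rintro ⟨h1, h2⟩
          rw [hwQ e h1] at h2
          by_cases h3 : e ∈ Q
          · rw [ind_mem h3, (mem_osup.1 (hQz h3)).2] at h2
            exact absurd h2 (by decide)
          · rw [ind_not_mem h3, add_zero] at h2
            exact ⟨⟨h1, h2⟩, h3⟩
        · rintro ⟨⟨h1, h2⟩, h3⟩
          rw [hwQ e h1, ind_not_mem h3, add_zero]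
          exact ⟨h1, h2⟩
      have hlt : (osup A (z + w)).card < n := by
        rw [hos, ← hn]
        refine Finset.card_lt_card ⟨Finset.sdiff_subset, fun hs => ?_⟩
        obtain ⟨e, he⟩ := hQ.ne
        exact (mem_sdiff.1 (hs (hQz he))).2 he
      obtain ⟨w', hw', hw'z⟩ := ih _ hlt (z + w) hz' rfl fun Q' hQ' hQ'z =>
        h Q' hQ' (hQ'z.trans (by rw [hos]; exact Finset.sdiff_subset))
      refine ⟨w' + w, W.add_mem hw' hw, fun e he => ?_⟩
      rw [Pi.add_apply, hw'z e he, Pi.add_apply, add_assoc, zmod2_add_self, add_zero]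
    · refine ⟨0, W.zero_mem, fun e he => ?_⟩
      rw [Finset.not_nonempty_iff_eq_empty] at h0
      by_contra h1
      have : e ∈ osup A z := mem_osup.2 ⟨he, zmod2_ne fun h2 => h1 (by rw [h2]; rfl)⟩
      rw [h0] at this
      exact absurd this (Finset.notMem_empty e)

/-- The cycles which vanish on `A \ V`. -/
def Zv (M : BM E) (A V : Finset E) : Submodule (ZMod 2) (E → ZMod 2) where
  carrier := {z | z ∈ M.Z ∧ ∀ e, e ∈ A → e ∉ V → z e = 0}
  add_mem' := by
    rintro z w ⟨hz, hz'⟩ ⟨hw, hw'⟩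
    exact ⟨M.Z.add_mem hz hw, fun e he hv => by simp [hz' e he hv, hw' e he hv]⟩
  zero_mem' := ⟨M.Z.zero_mem, fun _ _ _ => rfl⟩
  smul_mem' := by
    rintro c z ⟨hz, hz'⟩
    exact ⟨M.Z.smul_mem c hz, fun e he hv => by simp [hz' e he hv]⟩

/-- For a set `P` disjoint from `A`: `Hat M P V` means that some cycle in `Zv M A V` has trace
`P` outside of `A`. -/
theorem hat_iff (M : BM E) {A P V : Finset E} (hP : ∀ e ∈ P, e ∉ A) (hV : V ⊆ A) :
    Hat M P V ↔ ∃ z ∈ Zv M A V, ∀ e, e ∉ A → z e = ind P e := by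
  constructor
  · rintro ⟨z, hz, h1, h2⟩
    refine ⟨z, ⟨hz, fun e he hv => h2 e (fun h => hP e h he) hv⟩, fun e he => ?_⟩
    by_cases h : e ∈ P
    · rw [h1 e h, ind_mem h]
    · rw [h2 e h fun h' => he (hV h'), ind_not_mem h]
  · rintro ⟨z, ⟨hz, hz0⟩, h1⟩
    refine ⟨z, hz, fun e he => by rw [h1 e (hP e he), ind_mem he], fun e he hv => ?_⟩
    by_cases h : e ∈ A
    · exact hz0 e h hv
    · rw [h1 e h, ind_not_mem he]

theorem Ear.not_mem {M : BM E} {A P : Finset E} (h : Ear M A P) : ∀ e ∈ P, e ∉ A :=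
  fun e he => (mem_sdiff.1 (h.sub he)).2

/-- The main step: `P` is an ear with sum in the span of `V`, `P₁` is an ear whose sum is not in
the span of `V`, and they meet. -/
theorem ear_step (M : BM E) {A V P P₁ : Finset E} (hV : V ⊆ A) (hP : Ear M A P)
    (hPV : Hat M P V) (hP₁ : Ear M A P₁) (hP₁V : ¬ Hat M P₁ V) (hm : (P ∩ P₁).Nonempty) :
    ∃ Q, Ear M A Q ∧ ¬ Hat M Q V ∧ (Q ∩ P).Nonempty ∧ Q ⊆ P ∪ P₁ ∧
      ((Q ∪ P).card < (P₁ ∪ P).card ∨ ∀ e, e ∉ A → ind Q e = ind P e + ind P₁ e) := by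
  classical
  obtain ⟨z, hz, hzP⟩ := hP.ex
  obtain ⟨z₁, hz₁, hzP₁⟩ := hP₁.ex
  obtain ⟨z', hz', hzP'⟩ := (hat_iff M hP.not_mem hV).1 hPV
  have hy : z + z₁ ∈ M.Z := M.Z.add_mem hz hz₁
  have hyo : ∀ e, e ∉ A → (z + z₁) e = ind P e + ind P₁ e := fun e he => by
    rw [Pi.add_apply, hzP e he, hzP₁ e he]
  have hos : ∀ e, e ∈ osup A (z + z₁) → (e ∈ P ∧ e ∉ P₁) ∨ (e ∉ P ∧ e ∈ P₁) := by
    intro e he
    obtain ⟨h1, h2⟩ := mem_osup.1 he
    rw [hyo e h1] at h2
    by_cases h3 : e ∈ P <;> by_cases h4 : e ∈ P₁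
    · rw [ind_mem h3, ind_mem h4] at h2
      exact absurd h2 (by decide)
    · exact Or.inl ⟨h3, h4⟩
    · exact Or.inr ⟨h3, h4⟩
    · rw [ind_not_mem h3, ind_not_mem h4] at h2
      exact absurd h2 (by decide)
  obtain ⟨Q, hQ, hQz, hQV⟩ : ∃ Q, Ear M A Q ∧ Q ⊆ osup A (z + z₁) ∧ ¬ Hat M Q V := by
    by_contra hcon
    push Not at hcon
    obtain ⟨w, hw, hwz⟩ := decomp M A (Zv M A V) (fun w hw => hw.1) _ (z + z₁) hy rfl
      fun Q hQ hQz => (hat_iff M hQ.not_mem hV).1 (hcon Q hQ hQz)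
    apply hP₁V
    refine (hat_iff M hP₁.not_mem hV).2 ⟨w + z', Submodule.add_mem _ hw hz', fun e he => ?_⟩
    rw [Pi.add_apply, hwz e he, hzP' e he, hyo e he, add_comm, ← add_assoc, zmod2_add_self,
      zero_add]
  obtain ⟨y, hyZ, hyQ⟩ := hQ.ex
  obtain ⟨e₀, he₀⟩ := hm
  have he₀P := (mem_inter.1 he₀).1
  have he₀P₁ := (mem_inter.1 he₀).2
  have he₀Q : e₀ ∉ Q := by
    intro h
    rcases hos e₀ (hQz h) with h1 | h1
    · exact h1.2 he₀P₁
    · exact h1.1 he₀P
  have hQP : (Q ∩ P).Nonempty := by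
    by_contra h0
    rw [Finset.not_nonempty_iff_eq_empty] at h0
    have hQP₁ : ∀ e ∈ Q, e ∈ P₁ := by
      intro e he
      rcases hos e (hQz he) with h1 | h1
      · have : e ∈ Q ∩ P := mem_inter.2 ⟨he, h1.1⟩
        rw [h0] at this
        exact absurd this (Finset.notMem_empty e)
      · exact h1.2
    rcases hP₁.min y hyZ (fun e he he1 => by
      rw [hyQ e he, ind_not_mem fun h => he1 (hQP₁ e h)]) with h1 | h1
    · obtain ⟨e, he⟩ := hQ.ne
      have h2 := h1 e (hQP₁ e he)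
      rw [hyQ e (hQ.not_mem e he), ind_mem he] at h2
      exact one_ne_zero h2
    · have h2 := h1 e₀ he₀P₁
      rw [hyQ e₀ (hP.not_mem e₀ he₀P), ind_not_mem he₀Q] at h2
      exact zero_ne_one h2
  have hQsub : Q ⊆ P ∪ P₁ := by
    intro e he
    rcases hos e (hQz he) with h1 | h1
    · exact mem_union_left _ h1.1
    · exact mem_union_right _ h1.2
  refine ⟨Q, hQ, hQV, hQP, hQsub, ?_⟩
  by_cases hlt : (Q ∪ P).card < (P₁ ∪ P).card
  · exact Or.inl hlt
  · right
    have hsub : Q ∪ P ⊆ P₁ ∪ P := by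
      intro e he
      rcases mem_union.1 he with h1 | h1
      · rcases mem_union.1 (hQsub h1) with h2 | h2
        · exact mem_union_right _ h2
        · exact mem_union_left _ h2
      · exact mem_union_right _ h1
    have heq := Finset.eq_of_subset_of_card_le hsub (not_lt.1 hlt)
    have hP₁Q : ∀ e ∈ P₁, e ∉ P → e ∈ Q := by
      intro e he he'
      have : e ∈ Q ∪ P := by
        rw [heq]
        exact mem_union_left _ he
      exact (mem_union.1 this).resolve_right he'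
    have hzero : ∀ e, e ∉ A → e ∉ P → (z + z₁ + y) e = 0 := by
      intro e he he'
      rw [Pi.add_apply, hyo e he, hyQ e he, ind_not_mem he', zero_add]
      by_cases h1 : e ∈ P₁
      · rw [ind_mem h1, ind_mem (hP₁Q e h1 he')]
        decide
      · have h2 : e ∉ Q := fun h => by
          rcases hos e (hQz h) with h3 | h3
          · exact he' h3.1
          · exact h1 h3.2
        rw [ind_not_mem h1, ind_not_mem h2]
        rfl
    have hP0 : ∀ e ∈ P, (z + z₁ + y) e = 0 := by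
      rcases hP.min _ (M.Z.add_mem hy hyZ) hzero with h1 | h1
      · exact h1
      · exfalso
        have h2 := h1 e₀ he₀P
        have h3 := hP.not_mem e₀ he₀P
        rw [Pi.add_apply, hyo e₀ h3, hyQ e₀ h3, ind_mem he₀P, ind_mem he₀P₁,
          ind_not_mem he₀Q] at h2
        have h5 : (1 : ZMod 2) + 1 + 0 ≠ 1 := by decide
        exact h5 h2
    intro e he
    have h0 : (z + z₁ + y) e = 0 := by
      by_cases h : e ∈ P
      · exact hP0 e h
      · exact hzero e he h
    rw [Pi.add_apply, hyo e he, hyQ e he] at h0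
    have h4 : ∀ a b : ZMod 2, a + b = 0 → b = a := by decide
    exact h4 _ _ h0

/-- (S1) -/
theorem ear_S1 (M : BM E) {A L : Finset E} (hL : L ⊆ A)
    (H : ∀ P, Ear M A P → Hat M P L ∨ Hat M P (A \ L)) {P₂ : Finset E} (hP₂ : Ear M A P₂)
    (hP₂L : ¬ Hat M P₂ L) :
    ∀ (n : ℕ) (P₁ : Finset E), (P₁ ∪ P₂).card = n → Ear M A P₁ → ¬ Hat M P₁ (A \ L) →
      ¬ (P₂ ∩ P₁).Nonempty := by
  intro n
  induction n using Nat.strong_induction_on with
  | _ n ih =>
    intro P₁ hn hP₁ hP₁V hm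
    have hV : A \ L ⊆ A := Finset.sdiff_subset
    have hP₂V : Hat M P₂ (A \ L) := (H P₂ hP₂).resolve_left hP₂L
    obtain ⟨Q, hQ, hQV, hQP, -, hQ'⟩ := ear_step M hV hP₂ hP₂V hP₁ hP₁V hm
    rcases hQ' with h1 | h1
    · exact ih _ (hn ▸ h1) Q rfl hQ hQV (by rwa [Finset.inter_comm])
    · apply hP₂L
      obtain ⟨z, hz, hzQ⟩ := (hat_iff M hQ.not_mem hL).1 ((H Q hQ).resolve_right hQV)
      obtain ⟨z₁, hz₁, hzP₁⟩ := (hat_iff M hP₁.not_mem hL).1 ((H P₁ hP₁).resolve_right hP₁V)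
      refine (hat_iff M hP₂.not_mem hL).2 ⟨z + z₁, Submodule.add_mem _ hz hz₁, fun e he => ?_⟩
      rw [Pi.add_apply, hzQ e he, hzP₁ e he, h1 e he, add_assoc, zmod2_add_self, add_zero]

open Classical in
/-- The union of the ears whose sum is not in the span of `V`. -/
noncomputable def earU (M : BM E) (A V : Finset E) : Finset E :=
  univ.filter fun e => ∃ Q, Ear M A Q ∧ ¬ Hat M Q V ∧ e ∈ Q

theorem mem_earU {M : BM E} {A V : Finset E} {e : E} :
    e ∈ earU M A V ↔ ∃ Q, Ear M A Q ∧ ¬ Hat M Q V ∧ e ∈ Q := by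
  simp [earU]

/-- (S2) -/
theorem ear_S2 (M : BM E) {A V : Finset E} (hV : V ⊆ A) {P : Finset E} (hP : Ear M A P) :
    ∀ (n : ℕ) (P₁ : Finset E), (P₁ ∪ P).card = n → Ear M A P₁ → ¬ Hat M P₁ V →
      (P ∩ P₁).Nonempty → P ⊆ earU M A V := by
  intro n
  induction n using Nat.strong_induction_on with
  | _ n ih =>
    intro P₁ hn hP₁ hP₁V hm
    by_cases hPV : Hat M P V
    · obtain ⟨Q, hQ, hQV, hQP, -, hQ'⟩ := ear_step M hV hP hPV hP₁ hP₁V hm
      rcases hQ' with h1 | h1
      · exact ih _ (hn ▸ h1) Q rfl hQ hQV (by rwa [Finset.inter_comm])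
      · intro e he
        have h2 := h1 e (hP.not_mem e he)
        rw [ind_mem he] at h2
        by_cases h3 : e ∈ P₁
        · exact mem_earU.2 ⟨P₁, hP₁, hP₁V, h3⟩
        · rw [ind_not_mem h3, add_zero] at h2
          have h4 : e ∈ Q := by
            by_contra h5
            rw [ind_not_mem h5] at h2
            exact zero_ne_one h2
          exact mem_earU.2 ⟨Q, hQ, hQV, h4⟩
    · exact fun e he => mem_earU.2 ⟨P, hP, hPV, he⟩

/-- (S3) If every ear of `A` has its sum in the span of `L` or in the span of `A \ L`, then every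
cycle is a sum of cycles inside `L ∪ B`, `S \ (L ∪ B)` and `A`, where `B` is the union of the
ears whose sum is not in the span of `A \ L`. -/
theorem ear_S3 (M : BM E) {A L : Finset E} (hA : A ⊆ M.S) (hL : L ⊆ A)
    (H : ∀ P, Ear M A P → Hat M P L ∨ Hat M P (A \ L)) (z : E → ZMod 2) (hz : z ∈ M.Z) :
    z ∈ (Zs M (L ∪ earU M A (A \ L)) ⊔ Zs M (M.S \ (L ∪ earU M A (A \ L)))) ⊔ Zs M A := by
  set B := earU M A (A \ L) with hB
  obtain ⟨w, hw, hwz⟩ := decomp M A (Zs M (L ∪ B) ⊔ Zs M (M.S \ (L ∪ B)))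
    (fun w hw => by
      obtain ⟨a, ha, b, hb, rfl⟩ := Submodule.mem_sup.1 hw
      exact M.Z.add_mem ha.1 hb.1) _ z hz rfl (fun Q hQ _ => by
      by_cases hQV : Hat M Q (A \ L)
      · by_cases hm : (Q ∩ B).Nonempty
        · -- `Q` is inside `B` and has its sum in the span of `L`
          obtain ⟨e, he⟩ := hm
          obtain ⟨P₁, hP₁, hP₁V, heP₁⟩ := mem_earU.1 (mem_inter.1 he).2
          have hm' : (Q ∩ P₁).Nonempty := ⟨e, mem_inter.2 ⟨(mem_inter.1 he).1, heP₁⟩⟩
          have hQL : Hat M Q L := by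
            by_contra hQL
            exact ear_S1 M hL H hQ hQL _ P₁ rfl hP₁ hP₁V hm'
          have hQB := ear_S2 M (Finset.sdiff_subset : A \ L ⊆ A) hQ _ P₁ rfl hP₁ hP₁V hm'
          obtain ⟨z, hz, hzQ⟩ := hQL
          refine ⟨z, Submodule.mem_sup_left ⟨hz, fun e he => hzQ.2 e ?_ ?_⟩, fun e he => ?_⟩
          · exact fun h => he (mem_union_right _ (hQB h))
          · exact fun h => he (mem_union_left _ h)
          · by_cases h : e ∈ Q
            · rw [hzQ.1 e h, ind_mem h]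
            · rw [hzQ.2 e h fun h' => he (hL h'), ind_not_mem h]
        · obtain ⟨z, hz, hzQ⟩ := hQV
          refine ⟨z, Submodule.mem_sup_right ⟨hz, fun e he => ?_⟩, fun e he => ?_⟩
          · by_cases h1 : e ∈ Q
            · exfalso
              apply he
              refine mem_sdiff.2 ⟨(mem_sdiff.1 (hQ.sub h1)).1, fun h2 => ?_⟩
              rcases mem_union.1 h2 with h3 | h3
              · exact hQ.not_mem e h1 (hL h3)
              · exact hm ⟨e, mem_inter.2 ⟨h1, h3⟩⟩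
            · by_cases h2 : e ∈ A \ L
              · exfalso
                apply he
                refine mem_sdiff.2 ⟨hA (mem_sdiff.1 h2).1, fun h3 => ?_⟩
                rcases mem_union.1 h3 with h4 | h4
                · exact (mem_sdiff.1 h2).2 h4
                · obtain ⟨P₁, hP₁, -, heP₁⟩ := mem_earU.1 h4
                  exact hP₁.not_mem e heP₁ (mem_sdiff.1 h2).1
              · exact hzQ.2 e h1 h2
          · by_cases h : e ∈ Q
            · rw [hzQ.1 e h, ind_mem h]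
            · rw [hzQ.2 e h fun h' => he (mem_sdiff.1 h').1, ind_not_mem h]
      · have hQL : Hat M Q L := (H Q hQ).resolve_right hQV
        obtain ⟨z, hz, hzQ⟩ := hQL
        refine ⟨z, Submodule.mem_sup_left ⟨hz, fun e he => hzQ.2 e ?_ ?_⟩, fun e he => ?_⟩
        · exact fun h => he (mem_union_right _ (mem_earU.2 ⟨Q, hQ, hQV, h⟩))
        · exact fun h => he (mem_union_left _ h)
        · by_cases h : e ∈ Q
          · rw [hzQ.1 e h, ind_mem h]
          · rw [hzQ.2 e h fun h' => he (hL h'), ind_not_mem h])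
  have h3 : z + w ∈ Zs M A := by
    refine ⟨M.Z.add_mem hz ?_, fun e he => ?_⟩
    · obtain ⟨a, ha, b, hb, rfl⟩ := Submodule.mem_sup.1 hw
      exact M.Z.add_mem ha.1 hb.1
    · rw [Pi.add_apply, hwz e he, zmod2_add_self]
  have h4 : z = w + (z + w) := by
    funext e
    rw [Pi.add_apply, Pi.add_apply, add_comm (z e), ← add_assoc, zmod2_add_self, zero_add]
  rw [h4]
  exact Submodule.add_mem _ (Submodule.mem_sup_left hw) (Submodule.mem_sup_right h3)

end SEY
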