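import Pool.Agent.Helper71.SEYApi2
import Pool.Agent.Helper25.SEY.Sc
import Pool.Agent.Helper1.SEY.EarLam

/-!
# Block CONV of project SEY: every 3-connected binary matroid without `F7*` minor contains a
series extension of `K4`

`Theta M P Q R`: the restriction of `M` to `P ∪ Q ∪ R` is a theta graph with paths `P`, `Q`, `R`.
An ear of a theta which splits two paths gives `K4`, an ear which splits three paths gives `F7*`.
If no ear splits two paths, then (S3) shows that all paths have one element, so that `P ∪ Q` is a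
cycle with two elements.
-/

set_option autoImplicit false

namespace SEY

open Finset

variable {E : Type} [Fintype E] [DecidableEq E]

namespace CV

/-- A theta graph with paths `P`, `Q`, `R`. -/
structure Theta (M : BM E) (P Q R : Finset E) : Prop where
  pq : Disjoint P Q
  pr : Disjoint P R
  qr : Disjoint Q R
  pS : P ⊆ M.S
  qS : Q ⊆ M.S
  rS : R ⊆ M.S
  pn : P.Nonempty
  qn : Q.Nonempty
  rn : R.Nonempty
  zpq : ind (P ∪ Q) ∈ M.Z
  zpr : ind (P ∪ R) ∈ M.Z
  cyc : ∀ z ∈ M.Z, (∀ e, e ∉ P → e ∉ Q → e ∉ R → z e = 0) →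
    z = 0 ∨ z = ind (P ∪ Q) ∨ z = ind (P ∪ R) ∨ z = ind (Q ∪ R)

theorem ind_qr {P Q R : Finset E} (pq : Disjoint P Q) (pr : Disjoint P R) (qr : Disjoint Q R) :
    (ind (Q ∪ R) : E → ZMod 2) = ind (P ∪ Q) + ind (P ∪ R) := by
  funext e
  rw [Pi.add_apply]
  by_cases hp : e ∈ P
  · rw [ind_mem (mem_union_left Q hp), ind_mem (mem_union_left R hp), ind_not_mem]
    · decide
    · rw [mem_union, not_or]
      exact ⟨Finset.disjoint_left.1 pq hp, Finset.disjoint_left.1 pr hp⟩
  · by_cases hq : e ∈ Q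
    · rw [ind_mem (mem_union_left R hq), ind_mem (mem_union_right P hq), ind_not_mem, add_zero]
      rw [mem_union, not_or]
      exact ⟨hp, Finset.disjoint_left.1 qr hq⟩
    · by_cases hr : e ∈ R
      · rw [ind_mem (mem_union_right Q hr), ind_mem (mem_union_right P hr), ind_not_mem, zero_add]
        rw [mem_union, not_or]
        exact ⟨hp, hq⟩
      · rw [ind_not_mem, ind_not_mem, ind_not_mem, add_zero]
        · rw [mem_union, not_or]
          exact ⟨hp, hr⟩
        · rw [mem_union, not_or]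
          exact ⟨hp, hq⟩
        · rw [mem_union, not_or]
          exact ⟨hq, hr⟩

theorem Theta.zqr {M : BM E} {P Q R : Finset E} (h : Theta M P Q R) : ind (Q ∪ R) ∈ M.Z := by
  rw [ind_qr h.pq h.pr h.qr]
  exact M.Z.add_mem h.zpq h.zpr

theorem Theta.swap {M : BM E} {P Q R : Finset E} (h : Theta M P Q R) : Theta M Q P R where
  pq := h.pq.symm
  pr := h.qr
  qr := h.pr
  pS := h.qS
  qS := h.pS
  rS := h.rS
  pn := h.qn
  qn := h.pn
  rn := h.rn
  zpq := by
    rw [Finset.union_comm]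
    exact h.zpq
  zpr := h.zqr
  cyc := by
    intro z hz hz0
    rw [Finset.union_comm Q P]
    rcases h.cyc z hz (fun e h1 h2 h3 => hz0 e h2 h1 h3) with h1 | h1 | h1 | h1
    · exact Or.inl h1
    · exact Or.inr (Or.inl h1)
    · exact Or.inr (Or.inr (Or.inr h1))
    · exact Or.inr (Or.inr (Or.inl h1))

theorem Theta.swap' {M : BM E} {P Q R : Finset E} (h : Theta M P Q R) : Theta M P R Q where
  pq := h.pr
  pr := h.pq
  qr := h.qr.symm
  pS := h.pS
  qS := h.rS
  rS := h.qS
  pn := h.pn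
  qn := h.rn
  rn := h.qn
  zpq := h.zpr
  zpr := h.zpq
  cyc := by
    intro z hz hz0
    rw [Finset.union_comm R Q]
    rcases h.cyc z hz (fun e h1 h2 h3 => hz0 e h1 h3 h2) with h1 | h1 | h1 | h1
    · exact Or.inl h1
    · exact Or.inr (Or.inr (Or.inl h1))
    · exact Or.inr (Or.inl h1)
    · exact Or.inr (Or.inr (Or.inr h1))

/-- A restriction with prescribed columns of a basis of the cycles is a series extension. -/
theorem hasT_of_cols {r s k : ℕ} {rows : Fin r → Fin k → ZMod 2} {duals : Fin s → Fin k → ZMod 2}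
    (hc : Compl rows duals) (M : BM E) (A : Finset E) (hA : A ⊆ M.S) (z : Fin s → E → ZMod 2)
    (hz : ∀ j, z j ∈ M.Z) (hz0 : ∀ j e, e ∉ A → z j e = 0)
    (hspan : ∀ y ∈ M.Z, (∀ e, e ∉ A → y e = 0) → ∃ a : Fin s → ZMod 2, ∀ e,
      y e = ∑ j, a j * z j e)
    (π : E → Fin k) (hπ : ∀ e ∈ A, ∀ j, duals j (π e) = z j e)
    (hsurj : ∀ i, ∃ e ∈ A, π e = i) : HasT rows M := by
  refine ⟨A, π, hA, hsurj, fun y hy => ?_⟩
  constructor
  · intro hyZ
    obtain ⟨a, ha⟩ := hspan y hyZ hy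
    refine ⟨fun i => ∑ j, a j * duals j i, fun i => ?_, fun e he => ?_⟩
    · have := (hc.symm.span (fun i => ∑ j, a j * duals j i)).1 ⟨a, fun e => rfl⟩ i
      rw [← this]
      exact Finset.sum_congr rfl fun e _ => mul_comm _ _
    · rw [ha e]
      exact Finset.sum_congr rfl fun j _ => by rw [hπ e he j]
  · rintro ⟨w, hw, hwy⟩
    obtain ⟨a, ha⟩ := (hc.symm.span w).2 fun i => by
      rw [← hw i]
      exact Finset.sum_congr rfl fun e _ => mul_comm _ _
    have h3 : y = ∑ j, a j • z j := by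
      funext e
      rw [Finset.sum_apply]
      by_cases he : e ∈ A
      · rw [hwy e he, ha]
        exact Finset.sum_congr rfl fun j _ => by
          rw [Pi.smul_apply, smul_eq_mul, hπ e he j]
      · rw [hy e he]
        refine (Finset.sum_eq_zero fun j _ => ?_).symm
        rw [Pi.smul_apply, hz0 j e he, smul_zero]
    rw [h3]
    exact Submodule.sum_mem _ fun j _ => M.Z.smul_mem _ (hz j)

/-- The three cycles. -/
def zb (P Q R : Finset E) (z : E → ZMod 2) : Fin 3 → E → ZMod 2 :=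
  ![ind (P ∪ R), z, ind (P ∪ Q) + z]

/-- The vector of the three values. -/
def col (P Q R : Finset E) (z : E → ZMod 2) (e : E) : Fin 3 → ZMod 2 :=
  fun j => zb P Q R z j e

section ear

variable {M : BM E} {P Q R W : Finset E} {z : E → ZMod 2}

theorem col_p (h : Theta M P Q R) {e : E} (he : e ∈ P) :
    col P Q R z e = ![1, z e, 1 + z e] := by
  funext j
  fin_cases j
  · exact ind_mem (mem_union_left _ he)
  · rfl
  · change (ind (P ∪ Q) + z) e = _
    rw [Pi.add_apply, ind_mem (mem_union_left _ he)]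
    rfl

theorem col_q (h : Theta M P Q R) {e : E} (he : e ∈ Q) :
    col P Q R z e = ![0, z e, 1 + z e] := by
  have hp := Finset.disjoint_right.1 h.pq he
  have hr := Finset.disjoint_left.1 h.qr he
  funext j
  fin_cases j
  · refine ind_not_mem ?_
    rw [mem_union, not_or]
    exact ⟨hp, hr⟩
  · rfl
  · change (ind (P ∪ Q) + z) e = _
    rw [Pi.add_apply, ind_mem (mem_union_right _ he)]
    rfl

theorem col_r (h : Theta M P Q R) {e : E} (he : e ∈ R) :
    col P Q R z e = ![1, z e, z e] := by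
  have hp := Finset.disjoint_right.1 h.pr he
  have hq := Finset.disjoint_right.1 h.qr he
  funext j
  fin_cases j
  · exact ind_mem (mem_union_right _ he)
  · rfl
  · change (ind (P ∪ Q) + z) e = _
    rw [Pi.add_apply, ind_not_mem, zero_add]
    · rfl
    · rw [mem_union, not_or]
      exact ⟨hp, hq⟩

theorem col_w (h : Theta M P Q R) (hW : Ear M (P ∪ Q ∪ R) W)
    (hzW : ∀ e, e ∉ P ∪ Q ∪ R → z e = ind W e) {e : E} (he : e ∈ W) :
    col P Q R z e = ![0, 1, 1] := by
  have hA := hW.not_mem e he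
  rw [mem_union, mem_union, not_or, not_or] at hA
  have hze : z e = 1 := by
    rw [hzW e (hW.not_mem e he), ind_mem he]
  funext j
  fin_cases j
  · refine ind_not_mem ?_
    rw [mem_union, not_or]
    exact ⟨hA.1.1, hA.2⟩
  · exact hze
  · change (ind (P ∪ Q) + z) e = _
    rw [Pi.add_apply, hze, ind_not_mem, zero_add]
    · rfl
    · rw [mem_union, not_or]
      exact hA.1

theorem zb_mem (h : Theta M P Q R) (hz : z ∈ M.Z) (j : Fin 3) : zb P Q R z j ∈ M.Z := by
  fin_cases j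
  · exact h.zpr
  · exact hz
  · exact M.Z.add_mem h.zpq hz

theorem zb_out (hzW : ∀ e, e ∉ P ∪ Q ∪ R → z e = ind W e) (j : Fin 3) (e : E)
    (he : e ∉ P ∪ Q ∪ R ∪ W) : zb P Q R z j e = 0 := by
  rw [mem_union, not_or] at he
  have hze : z e = 0 := by
    rw [hzW e he.1, ind_not_mem he.2]
  have hA := he.1
  rw [mem_union, mem_union, not_or, not_or] at hA
  fin_cases j
  · refine ind_not_mem ?_
    rw [mem_union, not_or]
    exact ⟨hA.1.1, hA.2⟩
  · exact hze
  · change (ind (P ∪ Q) + z) e = _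
    rw [Pi.add_apply, hze, ind_not_mem, zero_add]
    rw [mem_union, not_or]
    exact hA.1

theorem zb_span (h : Theta M P Q R) (hW : Ear M (P ∪ Q ∪ R) W) (hz : z ∈ M.Z)
    (hzW : ∀ e, e ∉ P ∪ Q ∪ R → z e = ind W e) (y : E → ZMod 2) (hy : y ∈ M.Z)
    (hy0 : ∀ e, e ∉ P ∪ Q ∪ R ∪ W → y e = 0) :
    ∃ a : Fin 3 → ZMod 2, ∀ e, y e = ∑ j, a j * zb P Q R z j e := by
  have key : ∀ x ∈ M.Z, (∀ e, e ∉ P ∪ Q ∪ R → x e = 0) →
      ∃ a : Fin 3 → ZMod 2, ∀ e, x e = ∑ j, a j * zb P Q R z j e := by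
    intro x hx hx0
    have e0 : ∀ e, zb P Q R z 0 e = ind (P ∪ R) e := fun e => rfl
    have e1 : ∀ e, zb P Q R z 1 e = z e := fun e => rfl
    have e2 : ∀ e, zb P Q R z 2 e = ind (P ∪ Q) e + z e := fun e => rfl
    have hcalc : ∀ a b : ZMod 2, a = b + (a + b) := by decide
    rcases h.cyc x hx (fun e h1 h2 h3 => hx0 e (by
      rw [mem_union, mem_union, not_or, not_or]
      exact ⟨⟨h1, h2⟩, h3⟩)) with h1 | h1 | h1 | h1
    · refine ⟨0, fun e => ?_⟩
      rw [h1, Fin.sum_univ_three]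
      simp
    · refine ⟨![0, 1, 1], fun e => ?_⟩
      rw [h1, Fin.sum_univ_three, e0, e1, e2]
      change _ = 0 * _ + 1 * z e + 1 * (ind (P ∪ Q) e + z e)
      rw [zero_mul, one_mul, one_mul, zero_add]
      exact hcalc _ _
    · refine ⟨![1, 0, 0], fun e => ?_⟩
      rw [h1, Fin.sum_univ_three, e0, e1, e2]
      change _ = 1 * ind (P ∪ R) e + 0 * z e + 0 * (ind (P ∪ Q) e + z e)
      rw [zero_mul, one_mul, zero_mul, add_zero, add_zero]
    · refine ⟨![1, 1, 1], fun e => ?_⟩
      rw [h1, ind_qr h.pq h.pr h.qr, Fin.sum_univ_three, e0, e1, e2]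
      change _ = 1 * ind (P ∪ R) e + 1 * z e + 1 * (ind (P ∪ Q) e + z e)
      rw [one_mul, one_mul, one_mul, Pi.add_apply]
      have : ∀ a b c : ZMod 2, a + b = b + c + (a + c) := by decide
      exact this _ _ _
  rcases hW.2.2.2 y hy hy0 with h1 | h1
  · refine key y hy fun e he => ?_
    by_cases heW : e ∈ W
    · exact h1 e heW
    · exact hy0 e fun h2 => (mem_union.1 h2).elim he heW
  · obtain ⟨a, ha⟩ := key (y + z) (M.Z.add_mem hy hz) fun e he => by
      rw [Pi.add_apply, hzW e he]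
      by_cases heW : e ∈ W
      · rw [h1 e heW, ind_mem heW]
        decide
      · rw [ind_not_mem heW, add_zero]
        exact hy0 e fun h2 => (mem_union.1 h2).elim he heW
    refine ⟨a + ![0, 1, 0], fun e => ?_⟩
    have h2 := ha e
    rw [Fin.sum_univ_three] at h2 ⊢
    have h3 : y e = (y + z) e + z e := by
      rw [Pi.add_apply, add_assoc, z_add_self, add_zero]
    rw [h3, h2]
    change _ = (a 0 + 0) * _ + (a 1 + 1) * _ + (a 2 + 0) * _
    have e1 : zb P Q R z 1 e = z e := rfl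
    rw [e1]
    ring

/-- Index of the column in `K4s`. -/
def gK (x : Fin 3 → ZMod 2) : Fin 6 :=
  if x = ![1, 1, 0] then 0 else if x = ![1, 0, 1] then 1 else if x = ![0, 1, 1] then 2 else
    if x = ![1, 0, 0] then 3 else if x = ![0, 1, 0] then 4 else 5

/-- Index of the column in `F7`. -/
def gF (x : Fin 3 → ZMod 2) : Fin 7 :=
  if x = ![1, 0, 0] then 0 else if x = ![0, 1, 0] then 1 else if x = ![0, 0, 1] then 2 else
    if x = ![1, 1, 0] then 3 else if x = ![1, 0, 1] then 4 else if x = ![0, 1, 1] then 5 else 6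

theorem gK_spec : ∀ x : Fin 3 → ZMod 2, x ≠ 0 → x ≠ ![1, 1, 1] → ∀ j, K4s j (gK x) = x j := by
  decide

theorem gF_spec : ∀ x : Fin 3 → ZMod 2, x ≠ 0 → ∀ j, F7 j (gF x) = x j := by
  decide

/-- The ear splits `P` and `Q` and does not touch `R`. -/
theorem ear_K4 (h : Theta M P Q R) (hW : Ear M (P ∪ Q ∪ R) W) (hz : z ∈ M.Z)
    (hzW : ∀ e, e ∉ P ∪ Q ∪ R → z e = ind W e) (hP0 : ∃ e ∈ P, z e = 0) (hP1 : ∃ e ∈ P, z e = 1)
    (hQ0 : ∃ e ∈ Q, z e = 0) (hQ1 : ∃ e ∈ Q, z e = 1) (hR : ∀ e ∈ R, z e = 0) : HasT K4 M := by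
  have hWS : W ⊆ M.S := hW.sub.trans Finset.sdiff_subset
  refine hasT_of_cols compl_K4 M (P ∪ Q ∪ R ∪ W) ?_ (zb P Q R z) (zb_mem h hz)
    (zb_out hzW) (zb_span h hW hz hzW) (fun e => gK (col P Q R z e)) ?_ ?_
  · exact Finset.union_subset (Finset.union_subset (Finset.union_subset h.pS h.qS) h.rS) hWS
  · intro e he j
    have h1 : col P Q R z e ≠ 0 ∧ col P Q R z e ≠ ![1, 1, 1] := by
      rw [mem_union, mem_union, mem_union] at he
      rcases he with ((he | he) | he) | he
      · rw [col_p h he]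
        rcases zcases (z e) with h2 | h2 <;> rw [h2] <;> decide
      · rw [col_q h he]
        rcases zcases (z e) with h2 | h2 <;> rw [h2] <;> decide
      · rw [col_r h he, hR e he]
        decide
      · rw [col_w h hW hzW he]
        decide
    exact gK_spec _ h1.1 h1.2 j
  · obtain ⟨p0, hp0, zp0⟩ := hP0
    obtain ⟨p1, hp1, zp1⟩ := hP1
    obtain ⟨q0, hq0, zq0⟩ := hQ0
    obtain ⟨q1, hq1, zq1⟩ := hQ1
    obtain ⟨r0, hr0⟩ := h.rn
    obtain ⟨w0, hw0⟩ := hW.ne
    intro i
    fin_cases i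
    · refine ⟨p1, by simp [hp1], ?_⟩
      change gK _ = _
      rw [col_p h hp1, zp1]
      decide
    · refine ⟨p0, by simp [hp0], ?_⟩
      change gK _ = _
      rw [col_p h hp0, zp0]
      decide
    · refine ⟨w0, by simp [hw0], ?_⟩
      change gK _ = _
      rw [col_w h hW hzW hw0]
      decide
    · refine ⟨r0, by simp [hr0], ?_⟩
      change gK _ = _
      rw [col_r h hr0, hR r0 hr0]
      decide
    · refine ⟨q1, by simp [hq1], ?_⟩
      change gK _ = _
      rw [col_q h hq1, zq1]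
      decide
    · refine ⟨q0, by simp [hq0], ?_⟩
      change gK _ = _
      rw [col_q h hq0, zq0]
      decide

/-- The ear splits all three paths. -/
theorem ear_F7s (h : Theta M P Q R) (hW : Ear M (P ∪ Q ∪ R) W) (hz : z ∈ M.Z)
    (hzW : ∀ e, e ∉ P ∪ Q ∪ R → z e = ind W e) (hP0 : ∃ e ∈ P, z e = 0) (hP1 : ∃ e ∈ P, z e = 1)
    (hQ0 : ∃ e ∈ Q, z e = 0) (hQ1 : ∃ e ∈ Q, z e = 1) (hR0 : ∃ e ∈ R, z e = 0)
    (hR1 : ∃ e ∈ R, z e = 1) : HasT F7s M := by
  have hWS : W ⊆ M.S := hW.sub.trans Finset.sdiff_subset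
  refine hasT_of_cols compl_F7.symm M (P ∪ Q ∪ R ∪ W) ?_ (zb P Q R z) (zb_mem h hz)
    (zb_out hzW) (zb_span h hW hz hzW) (fun e => gF (col P Q R z e)) ?_ ?_
  · exact Finset.union_subset (Finset.union_subset (Finset.union_subset h.pS h.qS) h.rS) hWS
  · intro e he j
    have h1 : col P Q R z e ≠ 0 := by
      rw [mem_union, mem_union, mem_union] at he
      rcases he with ((he | he) | he) | he
      · rw [col_p h he]
        rcases zcases (z e) with h2 | h2 <;> rw [h2] <;> decide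
      · rw [col_q h he]
        rcases zcases (z e) with h2 | h2 <;> rw [h2] <;> decide
      · rw [col_r h he]
        rcases zcases (z e) with h2 | h2 <;> rw [h2] <;> decide
      · rw [col_w h hW hzW he]
        decide
    exact gF_spec _ h1 j
  · obtain ⟨p0, hp0, zp0⟩ := hP0
    obtain ⟨p1, hp1, zp1⟩ := hP1
    obtain ⟨q0, hq0, zq0⟩ := hQ0
    obtain ⟨q1, hq1, zq1⟩ := hQ1
    obtain ⟨r0, hr0, zr0⟩ := hR0
    obtain ⟨r1, hr1, zr1⟩ := hR1
    obtain ⟨w0, hw0⟩ := hW.ne
    intro i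
    fin_cases i
    · refine ⟨r0, by simp [hr0], ?_⟩
      change gF _ = _
      rw [col_r h hr0, zr0]
      decide
    · refine ⟨q1, by simp [hq1], ?_⟩
      change gF _ = _
      rw [col_q h hq1, zq1]
      decide
    · refine ⟨q0, by simp [hq0], ?_⟩
      change gF _ = _
      rw [col_q h hq0, zq0]
      decide
    · refine ⟨p1, by simp [hp1], ?_⟩
      change gF _ = _
      rw [col_p h hp1, zp1]
      decide
    · refine ⟨p0, by simp [hp0], ?_⟩
      change gF _ = _
      rw [col_p h hp0, zp0]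
      decide
    · refine ⟨w0, by simp [hw0], ?_⟩
      change gF _ = _
      rw [col_w h hW hzW hw0]
      decide
    · refine ⟨r1, by simp [hr1], ?_⟩
      change gF _ = _
      rw [col_r h hr1, zr1]
      decide

theorem union_perm (P Q R : Finset E) : P ∪ Q ∪ R = Q ∪ P ∪ R := by
  rw [Finset.union_comm P Q]

theorem union_perm' (P Q R : Finset E) : P ∪ Q ∪ R = P ∪ R ∪ Q := by
  rw [Finset.union_assoc, Finset.union_comm Q R, ← Finset.union_assoc]

/-- The ear splits `P` and `Q`. -/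
theorem ear_two (h : Theta M P Q R) (hF : ¬ HasMinor F7s M) (hW : Ear M (P ∪ Q ∪ R) W)
    (hz : z ∈ M.Z) (hzW : ∀ e, e ∉ P ∪ Q ∪ R → z e = ind W e) (hP0 : ∃ e ∈ P, z e = 0)
    (hP1 : ∃ e ∈ P, z e = 1) (hQ0 : ∃ e ∈ Q, z e = 0) (hQ1 : ∃ e ∈ Q, z e = 1) :
    HasT K4 M := by
  by_cases hR1 : ∃ e ∈ R, z e = 1
  · by_cases hR0 : ∃ e ∈ R, z e = 0
    · exact absurd (HasMinor_of_HasT (ear_F7s h hW hz hzW hP0 hP1 hQ0 hQ1 hR0 hR1)) hF
    · -- add the cycle `P ∪ R`
      have hR : ∀ e ∈ R, z e = 1 := fun e he => z_ne_zero.1 fun h1 => hR0 ⟨e, he, h1⟩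
      have hp : ∀ e ∈ P, (z + ind (P ∪ R)) e = z e + 1 := fun e he => by
        rw [Pi.add_apply, ind_mem (mem_union_left _ he)]
      have hq : ∀ e ∈ Q, (z + ind (P ∪ R)) e = z e := fun e he => by
        rw [Pi.add_apply, ind_not_mem, add_zero]
        rw [mem_union, not_or]
        exact ⟨Finset.disjoint_right.1 h.pq he, Finset.disjoint_left.1 h.qr he⟩
      refine ear_K4 h hW (z := z + ind (P ∪ R)) (M.Z.add_mem hz h.zpr) (fun e he => ?_) ?_ ?_ ?_
        ?_ (fun e he => ?_)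
      · rw [Pi.add_apply, hzW e he, ind_not_mem (A := P ∪ R), add_zero]
        rw [mem_union, mem_union, not_or, not_or] at he
        rw [mem_union, not_or]
        exact ⟨he.1.1, he.2⟩
      · obtain ⟨e, he, h1⟩ := hP1
        exact ⟨e, he, by rw [hp e he, h1]; decide⟩
      · obtain ⟨e, he, h1⟩ := hP0
        exact ⟨e, he, by rw [hp e he, h1]; decide⟩
      · obtain ⟨e, he, h1⟩ := hQ0
        exact ⟨e, he, by rw [hq e he, h1]⟩
      · obtain ⟨e, he, h1⟩ := hQ1
        exact ⟨e, he, by rw [hq e he, h1]⟩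
      · rw [Pi.add_apply, hR e he, ind_mem (mem_union_right _ he)]
        decide
  · exact ear_K4 h hW hz hzW hP0 hP1 hQ0 hQ1 fun e he => z_ne_one.1 fun h1 => hR1 ⟨e, he, h1⟩

/-- An ear which is constant on `P` and on `Q` has its sum in the span of `R`. -/
theorem ear_hat (h : Theta M P Q R) (hW : Ear M (P ∪ Q ∪ R) W)
    (hz : z ∈ M.Z) (hzW : ∀ e, e ∉ P ∪ Q ∪ R → z e = ind W e)
    (hP : ¬ ((∃ e ∈ P, z e = 0) ∧ ∃ e ∈ P, z e = 1))
    (hQ : ¬ ((∃ e ∈ Q, z e = 0) ∧ ∃ e ∈ Q, z e = 1)) : Hat M W R := by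
  have hzR : ∀ (X : Finset E) (y : E → ZMod 2), ¬ ((∃ e ∈ X, y e = 0) ∧ ∃ e ∈ X, y e = 1) →
      (∀ e ∈ X, y e = 0) ∨ ∀ e ∈ X, y e = 1 := by
    intro X y h1
    by_cases h2 : ∃ e ∈ X, y e = 0
    · left
      intro e he
      exact z_ne_one.1 fun h3 => h1 ⟨h2, e, he, h3⟩
    · right
      intro e he
      exact z_ne_zero.1 fun h3 => h2 ⟨e, he, h3⟩
  have hWout : ∀ e ∈ W, e ∉ P ∧ e ∉ Q ∧ e ∉ R := by
    intro e he
    have h1 := hW.not_mem e he
    rw [mem_union, mem_union, not_or, not_or] at h1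
    exact ⟨h1.1.1, h1.1.2, h1.2⟩
  -- make it zero on `P`
  obtain ⟨y, hy, hyo, hyP, hyQ⟩ : ∃ y ∈ M.Z, (∀ e, e ∉ P ∪ Q ∪ R → y e = ind W e) ∧
      (∀ e ∈ P, y e = 0) ∧ ∀ e ∈ Q, y e = z e := by
    rcases hzR P z hP with h1 | h1
    · exact ⟨z, hz, hzW, h1, fun _ _ => rfl⟩
    · refine ⟨z + ind (P ∪ R), M.Z.add_mem hz h.zpr, fun e he => ?_, fun e he => ?_,
        fun e he => ?_⟩
      · rw [Pi.add_apply, hzW e he, ind_not_mem (A := P ∪ R), add_zero]
        rw [mem_union, mem_union, not_or, not_or] at he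
        rw [mem_union, not_or]
        exact ⟨he.1.1, he.2⟩
      · rw [Pi.add_apply, h1 e he, ind_mem (mem_union_left _ he)]
        decide
      · rw [Pi.add_apply, ind_not_mem, add_zero]
        rw [mem_union, not_or]
        exact ⟨Finset.disjoint_right.1 h.pq he, Finset.disjoint_left.1 h.qr he⟩
  have hQ' : ¬ ((∃ e ∈ Q, y e = 0) ∧ ∃ e ∈ Q, y e = 1) := by
    rintro ⟨⟨e, he, h1⟩, e', he', h2⟩
    exact hQ ⟨⟨e, he, by rw [← hyQ e he, h1]⟩, e', he', by rw [← hyQ e' he', h2]⟩
  rcases hzR Q y hQ' with h1 | h1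
  · refine ⟨y, hy, fun e he => by rw [hyo e (hW.not_mem e he), ind_mem he], fun e heW heR => ?_⟩
    by_cases heP : e ∈ P
    · exact hyP e heP
    · by_cases heQ : e ∈ Q
      · exact h1 e heQ
      · rw [hyo e, ind_not_mem heW]
        rw [mem_union, mem_union, not_or, not_or]
        exact ⟨⟨heP, heQ⟩, heR⟩
  · refine ⟨y + ind (Q ∪ R), M.Z.add_mem hy h.zqr, fun e he => ?_, fun e heW heR => ?_⟩
    · obtain ⟨h2, h3, h4⟩ := hWout e he
      rw [Pi.add_apply, hyo e (hW.not_mem e he), ind_mem he, ind_not_mem, add_zero]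
      rw [mem_union, not_or]
      exact ⟨h3, h4⟩
    · rw [Pi.add_apply]
      by_cases heP : e ∈ P
      · rw [hyP e heP, ind_not_mem, add_zero]
        rw [mem_union, not_or]
        exact ⟨Finset.disjoint_left.1 h.pq heP, heR⟩
      · by_cases heQ : e ∈ Q
        · rw [h1 e heQ, ind_mem (mem_union_left _ heQ)]
          decide
        · rw [hyo e, ind_not_mem heW, ind_not_mem, add_zero]
          · rw [mem_union, not_or]
            exact ⟨heQ, heR⟩
          · rw [mem_union, mem_union, not_or, not_or]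
            exact ⟨⟨heP, heQ⟩, heR⟩

end ear

/-- All ears have their sum in the span of one path. -/
theorem all_hat {M : BM E} {P Q R : Finset E} (h : Theta M P Q R) (hF : ¬ HasMinor F7s M)
    (hK : ¬ HasT K4 M) {W : Finset E} (hW : Ear M (P ∪ Q ∪ R) W) :
    Hat M W P ∨ Hat M W Q ∨ Hat M W R := by
  obtain ⟨z, hz, hzW⟩ := hW.ex
  by_cases hP : (∃ e ∈ P, z e = 0) ∧ ∃ e ∈ P, z e = 1
  · by_cases hQ : (∃ e ∈ Q, z e = 0) ∧ ∃ e ∈ Q, z e = 1
    · exact absurd (ear_two h hF hW hz hzW hP.1 hP.2 hQ.1 hQ.2) hK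
    · by_cases hR : (∃ e ∈ R, z e = 0) ∧ ∃ e ∈ R, z e = 1
      · rw [union_perm'] at hW hzW
        exact absurd (ear_two h.swap' hF hW hz hzW hP.1 hP.2 hR.1 hR.2) hK
      · left
        have e1 : P ∪ Q ∪ R = R ∪ Q ∪ P := by
          rw [Finset.union_comm, ← Finset.union_assoc, union_perm' R P Q]
        rw [e1] at hW hzW
        exact ear_hat h.swap'.swap.swap' hW hz hzW hR hQ
  · by_cases hQ : (∃ e ∈ Q, z e = 0) ∧ ∃ e ∈ Q, z e = 1
    · by_cases hR : (∃ e ∈ R, z e = 0) ∧ ∃ e ∈ R, z e = 1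
      · have e1 : P ∪ Q ∪ R = Q ∪ R ∪ P := by
          rw [union_perm, union_perm']
        rw [e1] at hW hzW
        exact absurd (ear_two h.swap.swap' hF hW hz hzW hQ.1 hQ.2 hR.1 hR.2) hK
      · right; left
        rw [union_perm'] at hW hzW
        exact ear_hat h.swap' hW hz hzW hP hR
    · right; right
      exact ear_hat h hW hz hzW hP hQ

theorem hat_mono {M : BM E} {W V V' : Finset E} (hV : V ⊆ V') (h : Hat M W V) : Hat M W V' := by
  obtain ⟨z, hz, h1, h2⟩ := h
  exact ⟨z, hz, h1, fun e he he' => h2 e he fun h3 => he' (hV h3)⟩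

/-- If all ears have their sum in the span of a path, the path has one element. -/
theorem path_one {M : BM E} (hM : M.TC) {P Q R : Finset E} (h : Theta M P Q R)
    (hall : ∀ W, Ear M (P ∪ Q ∪ R) W → Hat M W P ∨ Hat M W Q ∨ Hat M W R) : P.card ≤ 1 := by
  have hA : P ∪ Q ∪ R ⊆ M.S := Finset.union_subset (Finset.union_subset h.pS h.qS) h.rS
  have hPA : P ⊆ P ∪ Q ∪ R := Finset.subset_union_left.trans Finset.subset_union_left
  have hsd : (P ∪ Q ∪ R) \ P = Q ∪ R := by
    ext e
    rw [mem_sdiff, mem_union, mem_union, mem_union]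
    constructor
    · rintro ⟨(h1 | h1) | h1, h2⟩
      · exact absurd h1 h2
      · exact Or.inl h1
      · exact Or.inr h1
    · rintro (h1 | h1)
      · exact ⟨Or.inl (Or.inr h1), Finset.disjoint_right.1 h.pq h1⟩
      · exact ⟨Or.inr h1, Finset.disjoint_right.1 h.pr h1⟩
  have h1 := BG.ear_lam M hA hPA fun W hW => by
    rw [hsd]
    rcases hall W hW with h2 | h2 | h2
    · exact Or.inl h2
    · exact Or.inr (hat_mono Finset.subset_union_left h2)
    · exact Or.inr (hat_mono Finset.subset_union_right h2)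
  have h2 := BG.lam_res_add M hA hPA
  rw [hsd] at h1 h2
  have h3 : BG.nu M (P ∪ Q ∪ R) ≤ 2 := by
    have h4 : Zs M (P ∪ Q ∪ R) ≤
        Submodule.span (ZMod 2) (({ind (P ∪ Q), ind (P ∪ R)} : Finset (E → ZMod 2)) :
          Set (E → ZMod 2)) := by
      rintro z ⟨hz, hz0⟩
      have ha : (ind (P ∪ Q) : E → ZMod 2) ∈ Submodule.span (ZMod 2)
          (({ind (P ∪ Q), ind (P ∪ R)} : Finset (E → ZMod 2)) : Set (E → ZMod 2)) :=
        Submodule.subset_span (by simp)
      have hb : (ind (P ∪ R) : E → ZMod 2) ∈ Submodule.span (ZMod 2)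
          (({ind (P ∪ Q), ind (P ∪ R)} : Finset (E → ZMod 2)) : Set (E → ZMod 2)) :=
        Submodule.subset_span (by simp)
      rcases h.cyc z hz (fun e h1 h2 h3 => hz0 e (by
        rw [mem_union, mem_union, not_or, not_or]
        exact ⟨⟨h1, h2⟩, h3⟩)) with h5 | h5 | h5 | h5
      · rw [h5]
        exact Submodule.zero_mem _
      · rw [h5]
        exact ha
      · rw [h5]
        exact hb
      · rw [h5, ind_qr h.pq h.pr h.qr]
        exact Submodule.add_mem _ ha hb
    refine (Submodule.finrank_mono h4).trans ((finrank_span_finset_le_card _).trans ?_)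
    exact Finset.card_le_two
  have h4 : 1 ≤ BG.nu M (Q ∪ R) := by
    have h5 : ind (Q ∪ R) ∈ Zs M (Q ∪ R) := ⟨h.zqr, fun e he => ind_not_mem he⟩
    obtain ⟨q, hq⟩ := h.qn
    have h6 : (ind (Q ∪ R) : E → ZMod 2) ≠ 0 := by
      intro h7
      have := congrFun h7 q
      rw [ind_mem (mem_union_left _ hq)] at this
      exact one_ne_zero this
    have h7 : Zs M (Q ∪ R) ≠ ⊥ := fun h8 => h6 (by rwa [h8, Submodule.mem_bot] at h5)
    have h8 := Submodule.finrank_eq_zero (S := Zs M (Q ∪ R))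
    by_contra h9
    exact h7 (h8.1 (by unfold BG.nu at h9; omega))
  set B := earU M (P ∪ Q ∪ R) (Q ∪ R) with hB
  have hBS : B ⊆ M.S \ (P ∪ Q ∪ R) := by
    intro e he
    obtain ⟨W, hW, -, heW⟩ := mem_earU.1 he
    exact hW.sub heW
  have hXS : P ∪ B ⊆ M.S := Finset.union_subset h.pS (hBS.trans Finset.sdiff_subset)
  rcases (hM.2 (P ∪ B) hXS).2 (by omega) with h5 | h5
  · exact (Finset.card_le_card Finset.subset_union_left).trans h5
  · exfalso
    obtain ⟨q, hq⟩ := h.qn
    obtain ⟨r, hr⟩ := h.rn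
    have hqS : q ∈ M.S \ (P ∪ B) := by
      refine mem_sdiff.2 ⟨h.qS hq, fun h6 => ?_⟩
      rcases mem_union.1 h6 with h7 | h7
      · exact Finset.disjoint_right.1 h.pq hq h7
      · exact (mem_sdiff.1 (hBS h7)).2 (mem_union_left _ (mem_union_right _ hq))
    have hrS : r ∈ M.S \ (P ∪ B) := by
      refine mem_sdiff.2 ⟨h.rS hr, fun h6 => ?_⟩
      rcases mem_union.1 h6 with h7 | h7
      · exact Finset.disjoint_right.1 h.pr hr h7
      · exact (mem_sdiff.1 (hBS h7)).2 (mem_union_right _ hr)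
    have h6 := Finset.card_le_one.1 h5 q hqS r hrS
    exact Finset.disjoint_left.1 h.qr hq (h6 ▸ hr)

/-- If `lam A` is not zero, some ear of `A` is not a cycle. -/
theorem exists_ear_not_cycle (M : BM E) {A : Finset E} (hA : A ⊆ M.S) (h0 : M.lam A ≠ 0) :
    ∃ W, Ear M A W ∧ ind W ∉ M.Z := by
  by_contra hcon
  have hall : ∀ W, Ear M A W → ind W ∈ M.Z := by
    intro W hW
    by_contra h1
    exact hcon ⟨W, hW, h1⟩
  apply h0
  refine BG.lam_eq_zero M hA fun z hz => ?_
  obtain ⟨w, hw, hwz⟩ := decomp M A (Zs M (M.S \ A)) (fun w hw => hw.1) _ z hz rfl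
    (fun Q hQ _ => ⟨ind Q, ⟨hall Q hQ, fun e he => ind_not_mem fun h1 => he (hQ.sub h1)⟩,
      fun e _ => rfl⟩)
  have h1 : z + w ∈ Zs M A := ⟨M.Z.add_mem hz hw.1, fun e he => by
    rw [Pi.add_apply, hwz e he, zmod2_add_self]⟩
  have h2 : z = (z + w) + w := by
    funext e
    rw [Pi.add_apply, Pi.add_apply, add_assoc, zmod2_add_self, add_zero]
  rw [h2]
  exact Submodule.add_mem _ (Submodule.mem_sup_left h1) (Submodule.mem_sup_right hw)

/-- A 3-connected matroid contains a theta. -/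
theorem exists_theta (M : BM E) (hM : M.TC) : ∃ P Q R, Theta M P Q R := by
  classical
  have hcard := hM.card
  obtain ⟨e0, he0⟩ : M.S.Nonempty := Finset.card_pos.1 (by omega)
  obtain ⟨z0, hz0, hz0e⟩ := hM.exists_cycle he0
  obtain ⟨c, ⟨hcZ, hc0, hcmin⟩, hce, -⟩ := exists_isMin_of_mem hz0 hz0e
  set C := spt c with hC
  have hcC : c = ind C := (ind_spt c).symm
  have hCS : C ⊆ M.S := M.spt_subset_of_mem_Z hcZ
  have hCe : e0 ∈ C := mem_spt'.2 hce
  have hCn : C ≠ ∅ := fun h => by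
    rw [h] at hCe
    exact Finset.notMem_empty _ hCe
  have hin : ∀ y ∈ M.Z, (∀ e, e ∉ C → y e = 0) → y = 0 ∨ y = c := by
    intro y hy hy0
    by_cases h1 : y = 0
    · exact Or.inl h1
    · exact Or.inr (hcmin y hy h1 (spt_subset.2 hy0))
  have hCne : C ≠ M.S := by
    intro h
    obtain ⟨e1, he1, hne⟩ := Finset.exists_mem_ne (by omega : 1 < M.S.card) e0
    obtain ⟨y, hy, hy1, hy0⟩ := hM.exists_cycle_ne he1 he0 hne
    rcases hin y hy (fun e he => M.Z_supp hy (by rwa [← h])) with h1 | h1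
    · rw [h1] at hy1
      exact zero_ne_one hy1
    · rw [h1, hce] at hy0
      exact one_ne_zero hy0
  have hlam : M.lam C ≠ 0 := by
    intro h
    rcases hM.of_lam_zero hCS h with h1 | h1
    · exact hCn h1
    · exact hCne h1
  obtain ⟨W, hW, hWZ⟩ := exists_ear_not_cycle M hCS hlam
  obtain ⟨z, hz, hzW⟩ := hW.ex
  set T := C.filter fun e => z e = 1 with hT
  have hTm : ∀ e, e ∈ T ↔ e ∈ C ∧ z e = 1 := fun e => by rw [hT, mem_filter]
  have hTC : T ⊆ C := Finset.filter_subset _ _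
  have hWC : Disjoint W C := Finset.disjoint_left.2 hW.not_mem
  have hzT : ind (W ∪ T) = z := by
    funext e
    by_cases heC : e ∈ C
    · have heW : e ∉ W := Finset.disjoint_right.1 hWC heC
      rcases zcases (z e) with h1 | h1
      · rw [h1, ind_not_mem]
        rw [mem_union, not_or]
        refine ⟨heW, fun h2 => ?_⟩
        rw [((hTm e).1 h2).2] at h1
        exact one_ne_zero h1
      · rw [h1, ind_mem (mem_union_right _ ((hTm e).2 ⟨heC, h1⟩))]
    · rw [hzW e heC]
      by_cases heW : e ∈ W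
      · rw [ind_mem heW, ind_mem (mem_union_left _ heW)]
      · rw [ind_not_mem heW, ind_not_mem]
        rw [mem_union, not_or]
        exact ⟨heW, fun h2 => heC (hTC h2)⟩
  have hzR : ind (W ∪ (C \ T)) = z + c := by
    funext e
    rw [Pi.add_apply]
    by_cases heC : e ∈ C
    · have hc1 : c e = 1 := mem_spt'.1 heC
      have heW : e ∉ W := Finset.disjoint_right.1 hWC heC
      rcases zcases (z e) with h1 | h1
      · rw [h1, hc1, ind_mem]
        · decide
        · refine mem_union_right _ (mem_sdiff.2 ⟨heC, fun h2 => ?_⟩)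
          rw [((hTm e).1 h2).2] at h1
          exact one_ne_zero h1
      · rw [h1, hc1, ind_not_mem]
        · decide
        · rw [mem_union, not_or]
          exact ⟨heW, fun h2 => (mem_sdiff.1 h2).2 ((hTm e).2 ⟨heC, h1⟩)⟩
    · have hc1 : c e = 0 := notMem_spt.1 heC
      rw [hzW e heC, hc1, add_zero]
      by_cases heW : e ∈ W
      · rw [ind_mem heW, ind_mem (mem_union_left _ heW)]
      · rw [ind_not_mem heW, ind_not_mem]
        rw [mem_union, not_or]
        exact ⟨heW, fun h2 => heC (mem_sdiff.1 h2).1⟩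
  have hTR : ind (T ∪ (C \ T)) = c := by
    rw [Finset.union_sdiff_of_subset hTC, ← hcC]
  refine ⟨W, T, C \ T, ?_⟩
  refine
    { pq := hWC.mono_right hTC
      pr := hWC.mono_right Finset.sdiff_subset
      qr := Finset.disjoint_sdiff
      pS := hW.sub.trans Finset.sdiff_subset
      qS := hTC.trans hCS
      rS := Finset.sdiff_subset.trans hCS
      pn := hW.ne
      qn := ?_
      rn := ?_
      zpq := by rw [hzT]; exact hz
      zpr := by rw [hzR]; exact M.Z.add_mem hz hcZ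
      cyc := ?_ }
  · rw [Finset.nonempty_iff_ne_empty]
    intro h1
    apply hWZ
    rw [h1, Finset.union_empty] at hzT
    rw [hzT]
    exact hz
  · rw [Finset.nonempty_iff_ne_empty]
    intro h1
    apply hWZ
    rw [h1, Finset.union_empty] at hzR
    rw [hzR]
    exact M.Z.add_mem hz hcZ
  · intro y hy hy0
    rw [hzT, hzR, hTR]
    have hout : ∀ e, e ∉ C → e ∉ W → y e = 0 := fun e h1 h2 =>
      hy0 e h2 (fun h3 => h1 (hTC h3)) fun h3 => h1 (mem_sdiff.1 h3).1
    rcases hW.min y hy hout with h1 | h1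
    · rcases hin y hy (fun e he => by
        by_cases heW : e ∈ W
        · exact h1 e heW
        · exact hout e he heW) with h2 | h2
      · exact Or.inl h2
      · exact Or.inr (Or.inr (Or.inr h2))
    · have h3 : y = (y + z) + z := by
        funext e
        rw [Pi.add_apply, Pi.add_apply, add_assoc, z_add_self, add_zero]
      rcases hin (y + z) (M.Z.add_mem hy hz) (fun e he => by
        rw [Pi.add_apply, hzW e he]
        by_cases heW : e ∈ W
        · rw [h1 e heW, ind_mem heW]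
          decide
        · rw [hout e he heW, ind_not_mem heW, add_zero]) with h2 | h2
      · rw [h2, zero_add] at h3
        exact Or.inr (Or.inl h3)
      · rw [h2, add_comm] at h3
        exact Or.inr (Or.inr (Or.inl h3))

theorem K4_start (M : BM E) (h : M.TC) (hF : ¬ HasMinor F7s M) : HasT K4 M := by
  by_contra hK
  obtain ⟨P, Q, R, hT⟩ := exists_theta M h
  have hall := fun W (hW : Ear M (P ∪ Q ∪ R) W) => all_hat hT hF hK hW
  have h1 := path_one h hT hall
  have h2 := path_one h hT.swap fun W hW => by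
    rw [← union_perm] at hW
    rcases hall W hW with h3 | h3 | h3
    · exact Or.inr (Or.inl h3)
    · exact Or.inl h3
    · exact Or.inr (Or.inr h3)
  have h3 : (ind (P ∪ Q) : E → ZMod 2) ≠ 0 := by
    obtain ⟨p, hp⟩ := hT.pn
    intro h4
    have := congrFun h4 p
    rw [ind_mem (mem_union_left _ hp)] at this
    exact one_ne_zero this
  have h4 := h.cycle_weight hT.zpq h3
  rw [spt_ind] at h4
  have h5 := Finset.card_union_le P Q
  omega

end CV

end SEY
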